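import Pool.Agent.TH826.UH.Pair
set_option autoImplicit false

/-!
Further properties of the regulator integral `pr` of two functions on a loop.
-/

namespace Pool.Agent.TH690.UR

open MeasureTheory Set

open Pool.Agent.TH826.UH

open Pool.Agent.TH826.MK (circ norm_circ contDiff_circ circ_add_one hasDerivAt_circ)

open scoped Real

variable {G G' H H' : ℝ → ℂ}

theorem pr_symm (G H : ℝ → ℂ) : pr G H = -pr H G := by
  unfold pr
  rw [← intervalIntegral.integral_neg]
  refine intervalIntegral.integral_congr fun s _ => ?_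
  ring

theorem pr_self (G : ℝ → ℂ) : pr G G = 0 := by
  have h := pr_symm G G
  linarith

theorem pr_mul_left (hG : NZ G) (hG' : NZ G') (hH : NZ H) :
    pr (fun s => G s * G' s) H = pr G H + pr G' H := by
  rw [pr_symm, pr_mul hH hG hG', pr_symm H G, pr_symm H G']
  ring

theorem pr_prod_left {ι : Type*} [DecidableEq ι] (t : Finset ι) (hH : NZ H) {G : ι → ℝ → ℂ}
    (hG : ∀ j, NZ (G j)) : pr (fun s => ∏ j ∈ t, G j s) H = ∑ j ∈ t, pr (G j) H := by
  rw [pr_symm, pr_prod t hH hG, ← Finset.sum_neg_distrib]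
  refine Finset.sum_congr rfl fun j _ => ?_
  rw [pr_symm H, neg_neg]

theorem pr_neg_left : pr (fun s => -G s) H = pr G H := by
  rw [pr_symm, pr_neg, pr_symm H G, neg_neg]

theorem pr_div_left (hG : NZ G) (hG' : NZ G') (hH : NZ H) :
    pr (fun s => G s / G' s) H = pr G H - pr G' H := by
  rw [pr_symm, pr_div hH hG hG', pr_symm H G, pr_symm H G']
  ring

/-- `2 π` times the winding number -/
noncomputable def wn (H : ℝ → ℂ) : ℝ := ∫ s in (0 : ℝ)..1, (deriv H s / H s).im

theorem pr_const_left (c : ℂ) (H : ℝ → ℂ) : pr (fun _ => c) H = Real.log ‖c‖ * wn H := by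
  unfold pr wn
  rw [← intervalIntegral.integral_const_mul]
  refine intervalIntegral.integral_congr fun s _ => ?_
  simp

theorem pr_const_right (G : ℝ → ℂ) (c : ℂ) : pr G (fun _ => c) = -(Real.log ‖c‖ * wn G) := by
  rw [pr_symm, pr_const_left]

theorem nz_const {c : ℂ} (hc : c ≠ 0) : NZ fun _ => c := ⟨contDiff_const, fun _ => hc⟩

theorem nz_mul_const {c : ℂ} (hc : c ≠ 0) (hG : NZ G) : NZ fun s => c * G s :=
  (nz_const hc).mul hG

theorem nz_div_circ {R : ℝ} (hR : 0 < R) {c : ℂ} (hc : c ≠ 0) : NZ fun s => c / circ R s :=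
  (nz_const hc).div (nz_circ hR)

theorem ld_div_circ {R : ℝ} (hR : 0 < R) {c : ℂ} (hc : c ≠ 0) (s : ℝ) :
    (deriv (fun s => c / circ R s) s / (c / circ R s)).im = -(2 * π) := by
  have h1 := (nz_div_circ hR hc).ld_mul (nz_circ hR) s
  have h2 : (fun s => c / circ R s * circ R s) = fun _ => c := by
    funext s
    rw [div_mul_cancel₀ _ ((nz_circ hR).ne_zero s)]
  rw [h2] at h1
  simp only [deriv_const, zero_div] at h1
  have h3 := congrArg Complex.im h1
  rw [Complex.zero_im, Complex.add_im, ld_circ hR s] at h3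
  linarith

theorem wn_div_circ {R : ℝ} (hR : 0 < R) {c : ℂ} (hc : c ≠ 0) :
    wn (fun s => c / circ R s) = -(2 * π) := by
  unfold wn
  simp only [ld_div_circ hR hc]
  simp

/-- The pairing of `c₁ w` and `c₂ / w` on the circle. -/
theorem pr_circ_circ {R : ℝ} (hR : 0 < R) {c₁ c₂ : ℂ} (h₁ : c₁ ≠ 0) (h₂ : c₂ ≠ 0) :
    pr (fun s => c₁ * circ R s) (fun s => c₂ / circ R s) =
      -(2 * π * Real.log (‖c₁‖ * ‖c₂‖)) := by
  rw [pr_mul_left (nz_const h₁) (nz_circ hR) (nz_div_circ hR h₂), pr_const_left,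
    wn_div_circ hR h₂, pr_div (nz_circ hR) (nz_const h₂) (nz_circ hR), pr_self, pr_const hR,
    Real.log_mul (norm_ne_zero_iff.2 h₁) (norm_ne_zero_iff.2 h₂)]
  ring

section disc

/-- A function with values in a disc that does not contain `c'`. -/
structure Disc (X : ℝ → ℂ) (c c' : ℂ) (ρ : ℝ) : Prop where
  smooth : ContDiff ℝ 2 X
  per : ∀ s, X (s + 1) = X s
  disc : ∀ s, ‖X s - c‖ < ρ
  far : ρ ≤ ‖c - c'‖

variable {X : ℝ → ℂ} {c c' : ℂ} {ρ : ℝ}

theorem Disc.pos (h : Disc X c c' ρ) : 0 < ρ := (norm_nonneg _).trans_lt (h.disc 0)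

theorem Disc.ne (h : Disc X c c' ρ) : c - c' ≠ 0 := by
  rw [← norm_pos_iff]
  exact h.pos.trans_le h.far

theorem Disc.nz (h : Disc X c c' ρ) : NZ fun s => X s - c' := by
  refine ⟨h.smooth.sub contDiff_const, fun s => ?_⟩
  rw [← norm_pos_iff]
  have h1 : ‖c - c'‖ ≤ ‖X s - c'‖ + ‖X s - c‖ := by
    have : c - c' = (X s - c') - (X s - c) := by ring
    rw [this]
    exact norm_sub_le _ _
  linarith [h.disc s, h.far]

theorem Disc.wn (h : Disc X c c' ρ) : wn (fun s => X s - c') = 0 := by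
  have hcc := h.ne
  set w : ℝ → ℂ := fun s => 1 + (X s - c) / (c - c') with hw
  have hws : ∀ s, w s ∈ Complex.slitPlane := by
    intro s
    refine Complex.mem_slitPlane_iff.2 (Or.inl ?_)
    have h1 : ‖(X s - c) / (c - c')‖ < 1 := by
      rw [norm_div, div_lt_one (norm_pos_iff.2 hcc)]
      linarith [h.disc s, h.far]
    have h2 := Complex.abs_re_le_norm ((X s - c) / (c - c'))
    have h3 := (abs_le.1 h2).1
    rw [hw]
    simp only [Complex.add_re, Complex.one_re]
    linarith
  have hXd : ∀ s, HasDerivAt X (deriv X s) s := fun s =>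
    (h.smooth.differentiable (by norm_num) s).hasDerivAt
  have hlog : ∀ s, HasDerivAt (fun s => Complex.log (w s))
      (deriv (fun s => X s - c') s / (X s - c')) s := by
    intro s
    have h1 : HasDerivAt w (deriv X s / (c - c')) s := by
      rw [hw]
      exact (((hXd s).sub_const c).div_const (c - c')).const_add 1
    have h2 := h1.clog_real (hws s)
    refine h2.congr_deriv ?_
    rw [((hXd s).sub_const c').deriv]
    have h3 : w s = (X s - c') / (c - c') := by
      rw [hw]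
      simp only
      field_simp
      ring
    rw [h3]
    have := h.nz.ne_zero s
    field_simp
  have hwind : ∫ s in (0 : ℝ)..1, (deriv (fun s => X s - c') s / (X s - c')) = 0 := by
    rw [intervalIntegral.integral_eq_sub_of_hasDerivAt (fun s _ => hlog s)
      (h.nz.cont_ld.intervalIntegrable _ _)]
    have h1 : X 1 = X 0 := by
      have := h.per 0
      rwa [zero_add] at this
    simp only [hw, h1, sub_self]
  have h1 := Complex.imCLM.intervalIntegral_comp_comm
    (h.nz.cont_ld.intervalIntegrable (μ := volume) 0 1)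
  rw [hwind, map_zero] at h1
  exact h1

/-- Upper bound for the pairing with the coordinate on the circle. -/
theorem Disc.pr_circ_le (h : Disc X c c' ρ) {R : ℝ} (hR : 0 < R) {d : ℝ} (hd : 0 < d)
    (hfar : ρ + d ≤ ‖c - c'‖) : pr (circ R) (fun s => X s - c') ≤ -(2 * π * Real.log d) := by
  have nX := h.nz
  have hnorm : ∀ s, d ≤ ‖X s - c'‖ := by
    intro s
    have h1 : ‖c - c'‖ ≤ ‖X s - c'‖ + ‖X s - c‖ := by
      have : c - c' = (X s - c') - (X s - c) := by ring
      rw [this]
      exact norm_sub_le _ _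
    linarith [h.disc s]
  unfold pr
  simp only [ld_circ hR, norm_circ hR.le]
  have i1 : IntervalIntegrable (fun s => Real.log R *
      (deriv (fun s => X s - c') s / (X s - c')).im) volume 0 1 :=
    (continuous_const.mul nX.cont_im).intervalIntegrable _ _
  have i2 : IntervalIntegrable (fun s => Real.log ‖X s - c'‖ * (2 * π)) volume 0 1 :=
    (nX.cont_log.mul continuous_const).intervalIntegrable _ _
  have hw : ∫ s in (0 : ℝ)..1, (deriv (fun s => X s - c') s / (X s - c')).im = 0 := h.wn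
  rw [intervalIntegral.integral_sub i1 i2,
    intervalIntegral.integral_const_mul, hw, mul_zero, zero_sub,
    intervalIntegral.integral_mul_const, neg_le_neg_iff, mul_comm]
  refine mul_le_mul_of_nonneg_right ?_ (by positivity)
  have h3 : 0 ≤ ∫ s in (0 : ℝ)..1, (Real.log ‖X s - c'‖ - Real.log d) :=
    intervalIntegral.integral_nonneg (by norm_num) fun s _ =>
      sub_nonneg.2 (Real.log_le_log hd (hnorm s))
  rw [intervalIntegral.integral_sub (nX.cont_log.intervalIntegrable _ _)
    (continuous_const.intervalIntegrable _ _)] at h3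
  simp only [intervalIntegral.integral_const, sub_zero, smul_eq_mul, one_mul] at h3
  linarith

theorem Disc.pr_mul_circ_le (h : Disc X c c' ρ) {R : ℝ} (hR : 0 < R) {d : ℝ} (hd : 0 < d)
    (hfar : ρ + d ≤ ‖c - c'‖) {κ : ℂ} (hκ : κ ≠ 0) :
    pr (fun s => κ * circ R s) (fun s => X s - c') ≤ -(2 * π * Real.log d) := by
  rw [pr_mul_left (nz_const hκ) (nz_circ hR) h.nz, pr_const_left, h.wn, mul_zero, zero_add]
  exact h.pr_circ_le hR hd hfar

theorem Disc.pr_div_circ_le (h : Disc X c c' ρ) {R : ℝ} (hR : 0 < R) {d : ℝ} (hd : 0 < d)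
    (hfar : ρ + d ≤ ‖c - c'‖) {κ : ℂ} (hκ : κ ≠ 0) :
    pr (fun s => X s - c') (fun s => κ / circ R s) ≤ -(2 * π * Real.log d) := by
  rw [pr_div h.nz (nz_const hκ) (nz_circ hR), pr_const_right, h.wn, mul_zero, neg_zero, zero_sub,
    ← pr_symm]
  exact h.pr_circ_le hR hd hfar

/-- The normalised function -/
theorem abs_log_le {w : ℂ} {e : ℝ} (he : e < 1) (hw : ‖w‖ ≤ e) :
    |Real.log ‖1 + w‖| ≤ e / (1 - e) := by
  have he0 : 0 ≤ e := (norm_nonneg _).trans hw
  have h1e : 0 < 1 - e := by linarith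
  have h1 : 1 - e ≤ ‖1 + w‖ := by
    have h2 := norm_sub_norm_le (1 : ℂ) (-w)
    rw [norm_one, norm_neg, sub_neg_eq_add] at h2
    linarith
  have h2 : ‖1 + w‖ ≤ 1 + e := (norm_add_le _ _).trans (by rw [norm_one]; linarith)
  have h0 : 0 < ‖1 + w‖ := by linarith
  rw [abs_le]
  constructor
  · have h3 := Real.one_sub_inv_le_log_of_pos h0
    have h4 : ‖1 + w‖⁻¹ ≤ (1 - e)⁻¹ := inv_anti₀ h1e h1
    have h5 : -(e / (1 - e)) = 1 - (1 - e)⁻¹ := by
      field_simp
      ring
    linarith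
  · have h3 : Real.log ‖1 + w‖ ≤ ‖1 + w‖ - 1 := Real.log_le_sub_one_of_pos h0
    have h4 : e ≤ e / (1 - e) := by
      rw [le_div_iff₀ h1e]
      nlinarith
    linarith

/-- The pairing of two functions with values in small discs. -/
theorem abs_pr_le {X Y : ℝ → ℂ} {c c' f f' : ℂ} {ρ ρ' e η : ℝ} (hX : Disc X c c' ρ)
    (hY : Disc Y f f' ρ') (he : e < 1) (hX1 : ∀ s, ‖X s - c‖ ≤ e * ‖c - c'‖)
    (hY1 : ∀ s, ‖Y s - f‖ ≤ e * ‖f - f'‖) (hX2 : ∀ s, ‖deriv X s‖ ≤ η * ‖c - c'‖)
    (hY2 : ∀ s, ‖deriv Y s‖ ≤ η * ‖f - f'‖) :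
    |pr (fun s => X s - c') (fun s => Y s - f')| ≤
      2 * (e / (1 - e) * (η / (1 - e))) := by
  have h1e : 0 < 1 - e := by linarith
  have he0 : 0 ≤ e := by
    have h1 := (norm_nonneg _).trans (hX1 0)
    exact nonneg_of_mul_nonneg_left h1 (norm_pos_iff.2 hX.ne)
  have hη0 : 0 ≤ η := by
    have h1 := (norm_nonneg _).trans (hX2 0)
    exact nonneg_of_mul_nonneg_left h1 (norm_pos_iff.2 hX.ne)
  -- normalisation
  have hnorm : ∀ {X : ℝ → ℂ} {c c' : ℂ} {ρ : ℝ}, Disc X c c' ρ →
      (fun s => X s - c') = fun s => (c - c') * ((X s - c') / (c - c')) := by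
    intro X c c' ρ hX
    funext s
    rw [mul_div_cancel₀ _ hX.ne]
  have hn1 : NZ fun s => (X s - c') / (c - c') := hX.nz.div (nz_const hX.ne)
  have hn2 : NZ fun s => (Y s - f') / (f - f') := hY.nz.div (nz_const hY.ne)
  have hpr : pr (fun s => X s - c') (fun s => Y s - f') =
      pr (fun s => (X s - c') / (c - c')) (fun s => (Y s - f') / (f - f')) := by
    rw [pr_div_left hX.nz (nz_const hX.ne) hn2, pr_div hX.nz hY.nz (nz_const hY.ne),
      pr_div (nz_const hX.ne) hY.nz (nz_const hY.ne), pr_const_left, pr_const_right, hX.wn,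
      hY.wn, pr_const_left]
    have h1 : wn (fun _ => f - f') = 0 := by
      unfold wn
      simp
    rw [h1]
    ring
  rw [hpr]
  -- pointwise bounds
  have hlog : ∀ {X : ℝ → ℂ} {c c' : ℂ} {ρ : ℝ}, Disc X c c' ρ →
      (∀ s, ‖X s - c‖ ≤ e * ‖c - c'‖) → ∀ s, |Real.log ‖(X s - c') / (c - c')‖| ≤ e / (1 - e) := by
    intro X c c' ρ hX hX1 s
    have h1 : (X s - c') / (c - c') = 1 + (X s - c) / (c - c') := by
      have := hX.ne
      field_simp
      ring
    rw [h1]
    refine abs_log_le he ?_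
    rw [norm_div, div_le_iff₀ (norm_pos_iff.2 hX.ne)]
    exact hX1 s
  have hder : ∀ {X : ℝ → ℂ} {c c' : ℂ} {ρ : ℝ}, Disc X c c' ρ →
      (∀ s, ‖X s - c‖ ≤ e * ‖c - c'‖) → (∀ s, ‖deriv X s‖ ≤ η * ‖c - c'‖) →
      ∀ s, |(deriv (fun s => (X s - c') / (c - c')) s / ((X s - c') / (c - c'))).im| ≤
        η / (1 - e) := by
    intro X c c' ρ hX hX1 hX2 s
    refine (Complex.abs_im_le_norm _).trans ?_
    have hXd : HasDerivAt X (deriv X s) s :=
      (hX.smooth.differentiable (by norm_num) s).hasDerivAt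
    have h1 := ((hXd.sub_const c').div_const (c - c')).deriv
    rw [h1]
    have hne := hX.nz.ne_zero s
    have hcc := hX.ne
    have h2 : deriv X s / (c - c') / ((X s - c') / (c - c')) = deriv X s / (X s - c') := by
      field_simp
    rw [h2, norm_div, div_le_div_iff₀ (norm_pos_iff.2 hne) h1e]
    have h3 : (1 - e) * ‖c - c'‖ ≤ ‖X s - c'‖ := by
      have h4 : ‖c - c'‖ ≤ ‖X s - c'‖ + ‖X s - c‖ := by
        have : c - c' = (X s - c') - (X s - c) := by ring
        rw [this]
        exact norm_sub_le _ _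
      linarith [hX1 s]
    calc ‖deriv X s‖ * (1 - e) ≤ η * ‖c - c'‖ * (1 - e) :=
          mul_le_mul_of_nonneg_right (hX2 s) h1e.le
      _ = η * ((1 - e) * ‖c - c'‖) := by ring
      _ ≤ η * ‖X s - c'‖ := mul_le_mul_of_nonneg_left h3 hη0
  unfold pr
  have hb := intervalIntegral.norm_integral_le_of_norm_le_const (a := (0 : ℝ)) (b := 1)
    (f := fun s => Real.log ‖(X s - c') / (c - c')‖ *
      (deriv (fun s => (Y s - f') / (f - f')) s / ((Y s - f') / (f - f'))).im -
      Real.log ‖(Y s - f') / (f - f')‖ *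
      (deriv (fun s => (X s - c') / (c - c')) s / ((X s - c') / (c - c'))).im)
    (C := 2 * (e / (1 - e) * (η / (1 - e)))) (fun s _ => by
      rw [Real.norm_eq_abs]
      refine (abs_sub _ _).trans ?_
      rw [abs_mul, abs_mul]
      have l1 := hlog hX hX1 s
      have l2 := hlog hY hY1 s
      have d1 := hder hX hX1 hX2 s
      have d2 := hder hY hY1 hY2 s
      have m1 := mul_le_mul l1 d2 (abs_nonneg _) (by positivity)
      have m2 := mul_le_mul l2 d1 (abs_nonneg _) (by positivity)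
      linarith)
  rw [Real.norm_eq_abs, sub_zero, abs_one, mul_one] at hb
  exact hb

end disc

end Pool.Agent.TH690.UR
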