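import Pool.Agent.TH826.UH.Final
set_option autoImplicit false

/-!
The plane curves `lam ∏_i (x - a_i) ∏_j (y - b_j) = 1`, and the symbols
`{(x - a_i)/(x - a_0), (y - b_j)/(y - b_0)}`.
-/

namespace Pool.Agent.TH690.UR

open scoped WithZero

open Polynomial

open Pool.Agent.TH826.MK (KQ symb unitPart Unramified)

variable {K : Type*} [Field K] {m n : ℕ} (lam : K) (a : Fin (m + 1) → K) (b : Fin (n + 1) → K)

/-- The polynomial `∏_i (x - a_i)`. -/
noncomputable def sp {k : ℕ} (a : Fin k → K) : K[X] := ∏ i, (X - C (a i))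

/-- The equation `lam ∏_i (x - a_i) ∏_j (y - b_j) - 1`, a polynomial in `y` over the polynomials in
`x`. -/
noncomputable def eqC : K[X][X] :=
  C (C lam * sp a) * (∏ j, (X - C (C (b j)))) - 1

/-- The coordinate ring of the plane curve `lam ∏_i (x - a_i) ∏_j (y - b_j) = 1`. -/
def CRing : Type _ := AdjoinRoot (eqC lam a b)

noncomputable instance : CommRing (CRing lam a b) := AdjoinRoot.instCommRing (eqC lam a b)

/-- The polynomials in `x` as functions on the curve. -/
noncomputable def cof : K[X] →+* CRing lam a b := AdjoinRoot.of (eqC lam a b)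

/-- The constants. -/
noncomputable def ccst : K →+* CRing lam a b := (cof lam a b).comp C

/-- The function `x`. -/
noncomputable def cx : CRing lam a b := cof lam a b X

/-- The function `y`. -/
noncomputable def cy : CRing lam a b := AdjoinRoot.root (eqC lam a b)

theorem cof_sp {k : ℕ} (c : Fin k → K) : cof lam a b (sp c) =
    ∏ i, (cx lam a b - ccst lam a b (c i)) := by
  unfold sp
  rw [map_prod]
  refine Finset.prod_congr rfl fun i _ => ?_
  rw [map_sub]
  rfl

theorem c_eq : ccst lam a b lam * (∏ i, (cx lam a b - ccst lam a b (a i))) *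
    (∏ j, (cy lam a b - ccst lam a b (b j))) = 1 := by
  have h := AdjoinRoot.mk_self (f := eqC lam a b)
  have h2 : AdjoinRoot.mk (eqC lam a b) (eqC lam a b) =
      AdjoinRoot.of (eqC lam a b) (C lam * sp a) *
      (∏ j, (AdjoinRoot.root (eqC lam a b) - AdjoinRoot.of (eqC lam a b) (C (b j)))) - 1 := by
    conv_lhs => rw [show AdjoinRoot.mk (eqC lam a b) (eqC lam a b) =
      AdjoinRoot.mk (eqC lam a b) (C (C lam * sp a) * (∏ j, (X - C (C (b j)))) - 1) from rfl]
    rw [map_sub, map_mul, map_one, map_prod, AdjoinRoot.mk_C]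
    simp only [map_sub, AdjoinRoot.mk_X, AdjoinRoot.mk_C]
  rw [h2, map_mul, sub_eq_zero] at h
  have h3 : AdjoinRoot.of (eqC lam a b) (sp a) = ∏ i, (cx lam a b - ccst lam a b (a i)) :=
    cof_sp lam a b a
  rw [h3] at h
  exact h

theorem isUnit_x (i : Fin (m + 1)) : IsUnit (cx lam a b - ccst lam a b (a i)) := by
  have h := c_eq lam a b
  rw [← Finset.mul_prod_erase _ _ (Finset.mem_univ i)] at h
  refine IsUnit.of_mul_eq_one (ccst lam a b lam *
    (∏ i ∈ Finset.univ.erase i, (cx lam a b - ccst lam a b (a i))) *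
    (∏ j, (cy lam a b - ccst lam a b (b j)))) ?_
  linear_combination h

theorem isUnit_y (j : Fin (n + 1)) : IsUnit (cy lam a b - ccst lam a b (b j)) := by
  have h := c_eq lam a b
  rw [← Finset.mul_prod_erase Finset.univ (fun j => cy lam a b - ccst lam a b (b j))
    (Finset.mem_univ j)] at h
  refine IsUnit.of_mul_eq_one (ccst lam a b lam *
    (∏ i, (cx lam a b - ccst lam a b (a i))) *
    (∏ j ∈ Finset.univ.erase j, (cy lam a b - ccst lam a b (b j)))) ?_
  linear_combination h

/-- The unit `x - a_i`. -/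
noncomputable def ux (i : Fin (m + 1)) : (CRing lam a b)ˣ := (isUnit_x lam a b i).unit

/-- The unit `y - b_j`. -/
noncomputable def uy (j : Fin (n + 1)) : (CRing lam a b)ˣ := (isUnit_y lam a b j).unit

theorem coe_ux (i : Fin (m + 1)) :
    (ux lam a b i : CRing lam a b) = cx lam a b - ccst lam a b (a i) := rfl

theorem coe_uy (j : Fin (n + 1)) :
    (uy lam a b j : CRing lam a b) = cy lam a b - ccst lam a b (b j) := rfl

/-- The entries `(x - a_i)/(x - a_0)` and `(y - b_j)/(y - b_0)` of the symbols. -/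
noncomputable def cent (i : Fin (m + 1)) (j : Fin (n + 1)) : Fin 2 → (CRing lam a b)ˣ :=
  ![ux lam a b i / ux lam a b 0, uy lam a b j / uy lam a b 0]

section domain

variable {lam a b}

theorem eval_sp {k : ℕ} (c : Fin k → K) (x : K) : (sp c).eval x = ∏ i, (x - c i) := by
  unfold sp
  rw [eval_prod]
  simp

theorem monic_sp {k : ℕ} (c : Fin k → K) : (sp c).Monic :=
  monic_prod_of_monic _ _ fun i _ => monic_X_sub_C _

/-- The factor `y - b_j` product. -/
theorem monic_yprod : (∏ j, (X - C (C (b j))) : K[X][X]).Monic :=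
  monic_prod_of_monic _ _ fun i _ => monic_X_sub_C _

theorem natDegree_yprod : (∏ j, (X - C (C (b j))) : K[X][X]).natDegree = n + 1 := by
  rw [natDegree_prod_of_monic _ _ fun i _ => monic_X_sub_C _]
  simp

theorem lead_ne (hl : lam ≠ 0) : (C lam * sp a : K[X]) ≠ 0 :=
  mul_ne_zero (C_ne_zero.2 hl) (monic_sp a).ne_zero

theorem natDegree_eqC (hl : lam ≠ 0) : (eqC lam a b).natDegree = n + 1 := by
  have h1 : (C (C lam * sp a) * (∏ j, (X - C (C (b j)))) : K[X][X]).natDegree = n + 1 := by
    rw [natDegree_C_mul (lead_ne hl), natDegree_yprod]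
  unfold eqC
  rw [show (1 : K[X][X]) = C 1 from (map_one _).symm, natDegree_sub_C, h1]

theorem leadingCoeff_eqC (hl : lam ≠ 0) : (eqC lam a b).leadingCoeff = C lam * sp a := by
  have h1 : (C (C lam * sp a) * (∏ j, (X - C (C (b j)))) : K[X][X]).natDegree = n + 1 := by
    rw [natDegree_C_mul (lead_ne hl), natDegree_yprod]
  rw [leadingCoeff, natDegree_eqC hl]
  unfold eqC
  rw [coeff_sub, coeff_one, if_neg (by omega), sub_zero, coeff_C_mul]
  have h2 : (∏ j, (X - C (C (b j))) : K[X][X]).coeff (n + 1) = 1 := by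
    have := (monic_yprod (b := b)).coeff_natDegree
    rwa [natDegree_yprod] at this
  rw [h2, mul_one]

/-- A factor of a polynomial `f` with `π ∣ f + 1`, as polynomials over a domain with `π` prime, has
only coefficients divisible by `π`, except for the constant one. -/
theorem dvd_coeff {R : Type*} [CommRing R] [IsDomain R] {π : R} (hπ : Prime π) {f g h : R[X]}
    (hf : f = g * h) (h1 : C π ∣ f + 1) {k : ℕ} (hk : k ≠ 0) : π ∣ g.coeff k := by
  have : (Ideal.span {π}).IsPrime := (Ideal.span_singleton_prime hπ.ne_zero).2 hπ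
  set φ : R →+* R ⧸ Ideal.span {π} := Ideal.Quotient.mk _ with hφ
  have hd : IsDomain (R ⧸ Ideal.span {π}) := Ideal.Quotient.isDomain _
  have h2 : f.map φ = -1 := by
    obtain ⟨q, hq⟩ := h1
    have h3 : (f + 1).map φ = 0 := by
      rw [hq, Polynomial.map_mul, Polynomial.map_C]
      have h4 : φ π = 0 := Ideal.Quotient.eq_zero_iff_mem.2 (Ideal.mem_span_singleton_self π)
      rw [h4, C_0, zero_mul]
    rw [Polynomial.map_add, Polynomial.map_one] at h3
    exact eq_neg_of_add_eq_zero_left h3
  have h3 : g.map φ * h.map φ = -1 := by rw [← Polynomial.map_mul, ← hf, h2]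
  have h4 : IsUnit (g.map φ) := by
    refine IsUnit.of_mul_eq_one (-(h.map φ)) ?_
    rw [mul_neg, h3, neg_neg]
  have h5 : (g.map φ).natDegree = 0 := natDegree_eq_zero_of_isUnit h4
  have h6 : (g.map φ).coeff k = 0 := coeff_eq_zero_of_natDegree_lt (by omega)
  rw [coeff_map] at h6
  exact Ideal.mem_span_singleton.1 (Ideal.Quotient.eq_zero_iff_mem.1 h6)

theorem irreducible_eqC (hl : lam ≠ 0) (ha : Function.Injective a) :
    Irreducible (eqC lam a b) := by
  set π : K[X] := X - C (a 0) with hπ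
  have hπp : Prime π := prime_X_sub_C _
  have hdvd : π ∣ C lam * sp a := by
    refine Dvd.dvd.mul_left ?_ _
    unfold sp
    exact Finset.dvd_prod_of_mem (fun i => X - C (a i)) (Finset.mem_univ 0)
  have hsq : ¬ π * π ∣ C lam * sp a := by
    intro h
    unfold sp at h
    rw [← Finset.mul_prod_erase _ _ (Finset.mem_univ 0), ← mul_assoc, mul_comm (C lam),
      mul_assoc] at h
    have h1 := (mul_dvd_mul_iff_left hπp.ne_zero).1 h
    rw [hπ, dvd_iff_isRoot, IsRoot.def, eval_mul, eval_C, eval_prod] at h1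
    rcases mul_eq_zero.1 h1 with h2 | h2
    · exact hl h2
    · obtain ⟨i, hi, h3⟩ := Finset.prod_eq_zero_iff.1 h2
      rw [eval_sub, eval_X, eval_C, sub_eq_zero] at h3
      exact Finset.ne_of_mem_erase hi (ha h3).symm
  have h0 : (C π : K[X][X]) ∣ C (C lam * sp a) := by
    obtain ⟨q, hq⟩ := hdvd
    exact ⟨C q, by rw [hq, C_mul]⟩
  have h1 : (C π : K[X][X]) ∣ eqC lam a b + 1 := by
    have h2 : eqC lam a b + 1 = C (C lam * sp a) * (∏ j, (X - C (C (b j)))) := by
      unfold eqC
      rw [sub_add_cancel]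
    rw [h2]
    exact Dvd.dvd.mul_right h0 _
  have key : ∀ g h : K[X][X], eqC lam a b = g * h → g.natDegree = 0 → IsUnit g := by
    intro g h hgh hg
    obtain ⟨c, rfl⟩ := natDegree_eq_zero.1 hg
    -- `c` divides the coefficients
    have h2 : c ∣ C lam * sp a := by
      rw [← leadingCoeff_eqC (b := b) hl, hgh, leadingCoeff_mul, leadingCoeff_C]
      exact dvd_mul_right _ _
    have h3 : (C c : K[X][X]) ∣ 1 := by
      have h4 : (C c : K[X][X]) ∣ eqC lam a b := ⟨h, hgh⟩
      have h5 : (C c : K[X][X]) ∣ C (C lam * sp a) := by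
        obtain ⟨q, hq⟩ := h2
        exact ⟨C q, by rw [hq, C_mul]⟩
      have h6 : (C c : K[X][X]) ∣ C (C lam * sp a) * (∏ j, (X - C (C (b j)))) :=
        Dvd.dvd.mul_right h5 _
      have h7 : (1 : K[X][X]) = C (C lam * sp a) * (∏ j, (X - C (C (b j)))) - eqC lam a b := by
        unfold eqC
        ring
      rw [h7]
      exact dvd_sub h6 h4
    exact isUnit_of_dvd_one h3
  refine ⟨fun h => ?_, fun g h hgh => ?_⟩
  · have h2 := natDegree_eq_zero_of_isUnit h
    rw [natDegree_eqC hl] at h2
    omega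
  · by_cases hg : g.natDegree = 0
    · exact Or.inl (key g h hgh hg)
    by_cases hh : h.natDegree = 0
    · exact Or.inr (key h g (by rw [hgh, mul_comm]) hh)
    exfalso
    have h2 : π ∣ g.leadingCoeff := dvd_coeff hπp hgh h1 hg
    have h3 : π ∣ h.leadingCoeff := dvd_coeff hπp (by rw [hgh, mul_comm]) h1 hh
    have h4 := mul_dvd_mul h2 h3
    rw [← leadingCoeff_mul, ← hgh, leadingCoeff_eqC hl] at h4
    exact hsq h4

theorem isDomain_CRing (hl : lam ≠ 0) (ha : Function.Injective a) : IsDomain (CRing lam a b) :=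
  AdjoinRoot.isDomain_of_prime (irreducible_eqC hl ha).prime

end domain

section unram

variable {lam a b} {L : Type*} [Field L] (f : CRing lam a b →+* L)

/-- The symbols are unramified at all discrete valuations. -/
theorem symb_mem_unitPart (hlam : IsIntegral ℤ lam) (ha : ∀ i, IsIntegral ℤ (a i))
    (hb : ∀ j, IsIntegral ℤ (b j)) (v : Valuation L ℤᵐ⁰) (i : Fin (m + 1)) (j : Fin (n + 1)) :
    symb (fun l => Units.map (f : CRing lam a b →* L) (cent lam a b i j l)) ∈ unitPart v 2 := by
  set c : K →+* L := f.comp (ccst lam a b) with hc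
  set x : L := f (cx lam a b) with hx
  set y : L := f (cy lam a b) with hy
  have hint : ∀ u : K, IsIntegral ℤ u → v (c u) ≤ 1 := fun u hu =>
    Pool.Agent.TH826.MK.val_le_one_of_integral v (map_isIntegral_int _ hu)
  have hxu : ∀ i, f (ux lam a b i : CRing lam a b) = x - c (a i) := fun i => by
    rw [coe_ux, map_sub]
    rfl
  have hyu : ∀ j, f (uy lam a b j : CRing lam a b) = y - c (b j) := fun j => by
    rw [coe_uy, map_sub]
    rfl
  have hx0 : ∀ i, x - c (a i) ≠ 0 := fun i => by
    rw [← hxu]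
    exact ((ux lam a b i).isUnit.map f).ne_zero
  have hy0 : ∀ j, y - c (b j) ≠ 0 := fun j => by
    rw [← hyu]
    exact ((uy lam a b j).isUnit.map f).ne_zero
  set t : Fin 2 → Lˣ := fun l => Units.map (f : CRing lam a b →* L) (cent lam a b i j l) with ht
  have ht0 : (t 0 : L) = (x - c (a i)) / (x - c (a 0)) := by
    have h1 : t 0 = Units.map (f : CRing lam a b →* L) (ux lam a b i) /
        Units.map (f : CRing lam a b →* L) (ux lam a b 0) := map_div _ _ _
    rw [h1, Units.val_div_eq_div_val, Units.coe_map, Units.coe_map]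
    exact congrArg₂ (fun x y : L => x / y) (hxu _) (hxu _)
  have ht1 : (t 1 : L) = (y - c (b j)) / (y - c (b 0)) := by
    have h1 : t 1 = Units.map (f : CRing lam a b →* L) (uy lam a b j) /
        Units.map (f : CRing lam a b →* L) (uy lam a b 0) := map_div _ _ _
    rw [h1, Units.val_div_eq_div_val, Units.coe_map, Units.coe_map]
    exact congrArg₂ (fun x y : L => x / y) (hyu _) (hyu _)
  -- the poles of the coordinates
  have hpole : ∀ (x u w : L), v u ≤ 1 → v w ≤ 1 → 1 < v x → x - w ≠ 0 →
      v ((x - u) / (x - w) - 1) < 1 := by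
    intro x u w hu hw hxv hne
    have h1 : (x - u) / (x - w) - 1 = (w - u) / (x - w) := by
      rw [div_sub_one hne]
      congr 1
      ring
    have h2 : v (x - w) = v x := Valuation.map_sub_eq_of_lt_left v (hw.trans_lt hxv)
    rw [h1, map_div₀, h2, div_lt_one₀ (zero_lt_one.trans hxv)]
    exact ((v.map_sub _ _).trans (max_le hw hu)).trans_lt hxv
  by_cases hxv : 1 < v x
  · refine Pool.Agent.TH826.MK.mem_unitPart_of_oneUnit' v 0 t ?_
    rw [ht0]
    exact hpole _ _ _ (hint _ (ha _)) (hint _ (ha _)) hxv (hx0 0)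
  by_cases hyv : 1 < v y
  · refine Pool.Agent.TH826.MK.mem_unitPart_of_oneUnit' v 1 t ?_
    rw [ht1]
    exact hpole _ _ _ (hint _ (hb _)) (hint _ (hb _)) hyv (hy0 0)
  push Not at hxv hyv
  have hxle : ∀ i, v (x - c (a i)) ≤ 1 := fun i =>
    (v.map_sub _ _).trans (max_le hxv (hint _ (ha _)))
  have hyle : ∀ j, v (y - c (b j)) ≤ 1 := fun j =>
    (v.map_sub _ _).trans (max_le hyv (hint _ (hb _)))
  have heq : c lam * (∏ i, (x - c (a i))) * (∏ j, (y - c (b j))) = 1 := by
    have h1 := congrArg f (c_eq lam a b)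
    rw [map_mul, map_mul, map_prod, map_prod, map_one] at h1
    simp only [map_sub] at h1
    exact h1
  have hveq : v (c lam) * (∏ i, v (x - c (a i))) * (∏ j, v (y - c (b j))) = 1 := by
    rw [← map_prod, ← map_prod, ← map_mul, ← map_mul, heq, map_one]
  have hX1 : ∏ i, v (x - c (a i)) ≤ 1 := Finset.prod_le_one' fun i _ => hxle i
  have hY1 : ∏ j, v (y - c (b j)) ≤ 1 := Finset.prod_le_one' fun j _ => hyle j
  have hxone : ∀ i, v (x - c (a i)) = 1 := by
    intro i
    refine le_antisymm (hxle i) ?_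
    rw [← hveq, ← Finset.mul_prod_erase _ _ (Finset.mem_univ i)]
    have h1 : ∏ k ∈ Finset.univ.erase i, v (x - c (a k)) ≤ 1 :=
      Finset.prod_le_one' fun k _ => hxle k
    calc v (c lam) * (v (x - c (a i)) * ∏ k ∈ Finset.univ.erase i, v (x - c (a k))) *
          ∏ j, v (y - c (b j)) ≤ 1 * (v (x - c (a i)) * 1) * 1 :=
          mul_le_mul' (mul_le_mul' (hint _ hlam) (mul_le_mul' le_rfl h1)) hY1
      _ = v (x - c (a i)) := by rw [one_mul, mul_one, mul_one]
  have hyone : ∀ j, v (y - c (b j)) = 1 := by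
    intro j
    refine le_antisymm (hyle j) ?_
    rw [← hveq, ← Finset.mul_prod_erase Finset.univ (fun j => v (y - c (b j)))
      (Finset.mem_univ j)]
    have h1 : ∏ k ∈ Finset.univ.erase j, v (y - c (b k)) ≤ 1 :=
      Finset.prod_le_one' fun k _ => hyle k
    calc v (c lam) * (∏ i, v (x - c (a i))) *
          (v (y - c (b j)) * ∏ k ∈ Finset.univ.erase j, v (y - c (b k)))
          ≤ 1 * 1 * (v (y - c (b j)) * 1) :=
          mul_le_mul' (mul_le_mul' (hint _ hlam) hX1) (mul_le_mul' le_rfl h1)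
      _ = v (y - c (b j)) := by rw [one_mul, one_mul, mul_one]
  refine Submodule.subset_span ⟨t, fun l => ?_, rfl⟩
  fin_cases l
  · show v (t 0 : L) = 1
    rw [ht0, map_div₀, hxone, hxone, div_one]
  · show v (t 1 : L) = 1
    rw [ht1, map_div₀, hyone, hyone, div_one]

theorem symb_mem_unramified (hlam : IsIntegral ℤ lam) (ha : ∀ i, IsIntegral ℤ (a i))
    (hb : ∀ j, IsIntegral ℤ (b j)) (i : Fin (m + 1)) (j : Fin (n + 1)) :
    KQ.map 2 f (symb (cent lam a b i j)) ∈ Unramified L 2 := by
  rw [KQ.map_symb]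
  unfold Unramified
  simp only [Submodule.mem_iInf]
  intro v _
  exact symb_mem_unitPart f hlam ha hb v i j

end unram

end Pool.Agent.TH690.UR
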