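import Pool.Agent.TH826.UH.Roots
import Pool.Agent.TH690.UR.Ring
import Pool.Agent.TH690.UR.Pair
set_option autoImplicit false

/-!
The branches of the inverse function of `∏_i (x - a_i)` near the points `a_i`, if these are far from
each other.
-/

namespace Pool.Agent.TH690.UR

open Polynomial Metric Set

open Pool.Agent.TH826.UH

open Pool.Agent.TH826.MK (circ norm_circ contDiff_circ circ_add_one hasDerivAt_circ)

variable {m : ℕ} {a : Fin (m + 1) → ℂ} {D : ℝ}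

/-- The branches `ξ_k` of the inverse of `(2/D) ^ (m + 1) · 3 ∏_i (x - a_i)` near `a_k`, for
arguments of absolute value `< 3`. -/
structure Br (a : Fin (m + 1) → ℂ) (D : ℝ) (ξ : Fin (m + 1) → ℂ → ℂ) : Prop where
  ana : ∀ k, ∀ u ∈ ball (0 : ℂ) 3, AnalyticAt ℂ (ξ k) u
  disc : ∀ k, ∀ u ∈ ball (0 : ℂ) 3, ‖ξ k u - a k‖ < D / 2
  prod : ∀ u ∈ ball (0 : ℂ) 3, ∀ x, ∏ i, (x - a i) - ((D / 2) ^ (m + 1) / 3 : ℝ) * u =
    ∏ k, (x - ξ k u)
  crit : ∀ x, (derivative (sp a)).eval x = 0 → (D / 2) ^ (m + 1) ≤ ‖∏ i, (x - a i)‖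

theorem exists_br (hD : 0 < D) (hsep : ∀ i j, i ≠ j → D ≤ ‖a i - a j‖) : ∃ ξ, Br a D ξ := by
  set ρ : ℝ := (D / 2) ^ (m + 1) with hρdef
  have hρ : 0 < ρ := by positivity
  have hρc : ((ρ : ℝ) : ℂ) ≠ 0 := by exact_mod_cast hρ.ne'
  set c : ℂ := 3 / (ρ : ℂ) with hc
  have hc0 : c ≠ 0 := div_ne_zero (by norm_num) hρc
  have hcn : ‖c‖ = 3 / ρ := by
    rw [hc, norm_div, Complex.norm_ofNat, Complex.norm_real, Real.norm_eq_abs, abs_of_pos hρ]
  set F : ℂ[X] := C c * sp a with hF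
  have hdeg : F.natDegree = m + 1 := by
    rw [hF, natDegree_C_mul hc0]
    unfold sp
    rw [natDegree_prod_of_monic _ _ fun i _ => monic_X_sub_C _]
    simp
  have hlead : F.leadingCoeff = c := by
    rw [hF, leadingCoeff_mul, leadingCoeff_C, (monic_sp a).leadingCoeff, mul_one]
  have hFe : ∀ x, F.eval x = c * ∏ i, (x - a i) := fun x => by
    rw [hF, eval_mul, eval_C, eval_sp]
  have H : Sepd F a (D / 2) 1 := by
    refine ⟨hdeg, Nat.succ_pos m, by linarith, fun i j hij => by linarith [hsep i j hij],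
      fun j => ?_, one_pos, fun x hx => ?_⟩
    · rw [hFe, Finset.prod_eq_zero (Finset.mem_univ j) (sub_self _), mul_zero, norm_zero]
      norm_num
    · rw [hFe, norm_mul, hcn, norm_prod]
      have h1 : ρ ≤ ∏ i, ‖x - a i‖ := by
        calc ρ = ∏ _i : Fin (m + 1), (D / 2) := by
              rw [Finset.prod_const, Finset.card_univ, Fintype.card_fin]
          _ ≤ ∏ i, ‖x - a i‖ := Finset.prod_le_prod (fun i _ => by linarith) fun i _ => hx i
      calc (2 : ℝ) + 1 = 3 / ρ * ρ := by field_simp; norm_num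
        _ ≤ 3 / ρ * ∏ i, ‖x - a i‖ := mul_le_mul_of_nonneg_left h1 (by positivity)
  obtain ⟨ξ, h1, h2, h3, h4⟩ := H.exists_branches
  have h21 : (2 : ℝ) + 1 = 3 := by norm_num
  rw [h21] at h1 h2 h3 h4
  have hprod : ∀ u ∈ ball (0 : ℂ) 3, ∀ x, ∏ i, (x - a i) - (ρ / 3 : ℝ) * u =
      ∏ k, (x - ξ k u) := by
    intro u hu x
    have h5 := congrArg (eval x) (h3 u hu)
    rw [eval_sub, eval_C, hFe, hlead, eval_mul, eval_C, eval_prod] at h5
    simp only [eval_sub, eval_X, eval_C] at h5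
    have h6 : c * (∏ i, (x - a i) - (ρ / 3 : ℝ) * u) = c * ∏ k, (x - ξ k u) := by
      rw [← h5, mul_sub]
      congr 1
      rw [hc]
      push_cast
      field_simp
    exact mul_left_cancel₀ hc0 h6
  refine ⟨ξ, h1, h2, hprod, fun x hx => ?_⟩
  by_contra hcon
  push Not at hcon
  set u : ℂ := c * ∏ i, (x - a i) with hu
  have hub : u ∈ ball (0 : ℂ) 3 := by
    rw [mem_ball_zero_iff, hu, norm_mul, hcn]
    calc 3 / ρ * ‖∏ i, (x - a i)‖ < 3 / ρ * ρ := mul_lt_mul_of_pos_left hcon (by positivity)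
      _ = 3 := by field_simp
  have h5 := hprod u hub x
  have h6 : ∏ i, (x - a i) - (ρ / 3 : ℝ) * u = 0 := by
    rw [hu, hc]
    push_cast
    field_simp
    ring
  rw [h6] at h5
  obtain ⟨k, -, hk⟩ := Finset.prod_eq_zero_iff.1 h5.symm
  have h7 := h4 k u hub
  rw [← sub_eq_zero.1 hk, hF, derivative_C_mul, eval_mul, eval_C, hx, mul_zero] at h7
  exact h7 rfl

variable {ξ : Fin (m + 1) → ℂ → ℂ}

theorem Br.prod_val (h : Br a D ξ) {u : ℂ} (hu : u ∈ ball (0 : ℂ) 3) (k : Fin (m + 1)) :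
    ∏ i, (ξ k u - a i) = ((D / 2) ^ (m + 1) / 3 : ℝ) * u := by
  have h1 := h.prod u hu (ξ k u)
  rw [Finset.prod_eq_zero (f := fun j => ξ k u - ξ j u) (Finset.mem_univ k) (sub_self _)] at h1
  exact sub_eq_zero.1 h1

theorem Br.prod_root (h : Br a D ξ) {u : ℂ} (hu : u ∈ ball (0 : ℂ) 3) (i : Fin (m + 1)) :
    ∏ k, (a i - ξ k u) = -(((D / 2) ^ (m + 1) / 3 : ℝ) * u) := by
  have h1 := h.prod u hu (a i)
  rw [Finset.prod_eq_zero (f := fun j => a i - a j) (Finset.mem_univ i) (sub_self _),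
    zero_sub] at h1
  exact h1.symm

theorem Br.zero (h : Br a D ξ) (hD : 0 < D) (hsep : ∀ i j, i ≠ j → D ≤ ‖a i - a j‖)
    (k : Fin (m + 1)) : ξ k 0 = a k := by
  have h0 : (0 : ℂ) ∈ ball (0 : ℂ) 3 := mem_ball_self (by norm_num)
  have h1 := h.prod_val h0 k
  rw [mul_zero] at h1
  obtain ⟨i, -, hi⟩ := Finset.prod_eq_zero_iff.1 h1
  have h2 := h.disc k 0 h0
  rw [sub_eq_zero.1 hi] at h2 ⊢
  by_contra hne
  have hik : i ≠ k := fun e => hne (by rw [e])
  have h3 := hsep i k hik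
  linarith

/-- Schwarz lemma -/
theorem Br.norm_le (h : Br a D ξ) (hD : 0 < D) (hsep : ∀ i j, i ≠ j → D ≤ ‖a i - a j‖)
    (k : Fin (m + 1)) {u : ℂ} (hu : u ∈ ball (0 : ℂ) 3) : ‖ξ k u - a k‖ ≤ D / 6 * ‖u‖ := by
  have hd : DifferentiableOn ℂ (ξ k) (ball 0 3) := fun u hu =>
    (h.ana k u hu).differentiableAt.differentiableWithinAt
  have hmaps : MapsTo (ξ k) (ball 0 3) (closedBall (ξ k 0) (D / 2)) := by
    intro u hu
    rw [h.zero hD hsep k, mem_closedBall, dist_eq_norm]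
    exact (h.disc k u hu).le
  have h1 := Complex.dist_le_div_mul_dist_of_mapsTo_ball hd hmaps hu
  rw [h.zero hD hsep k, dist_eq_norm, dist_zero_right] at h1
  refine h1.trans (le_of_eq ?_)
  ring

/-- Cauchy estimate -/
theorem Br.norm_deriv_le (h : Br a D ξ) (k : Fin (m + 1)) {u : ℂ}
    (hu : ‖u‖ ≤ 5 / 4) : ‖deriv (ξ k) u‖ ≤ D / 3 := by
  have hsub : closedBall u (3 / 2) ⊆ ball (0 : ℂ) 3 := by
    intro z hz
    rw [mem_closedBall, dist_eq_norm] at hz
    rw [mem_ball_zero_iff]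
    have h1 : ‖z‖ ≤ ‖z - u‖ + ‖u‖ := by
      have : z = (z - u) + u := by ring
      calc ‖z‖ = ‖(z - u) + u‖ := by rw [← this]
        _ ≤ _ := norm_add_le _ _
    linarith
  have hd : DifferentiableOn ℂ (fun z => ξ k z - a k) (closedBall u (3 / 2)) := fun z hz =>
    ((h.ana k z (hsub hz)).differentiableAt.sub_const _).differentiableWithinAt
  have hdc : DiffContOnCl ℂ (fun z => ξ k z - a k) (ball u (3 / 2)) := by
    refine DifferentiableOn.diffContOnCl ?_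
    rw [closure_ball u (by norm_num)]
    exact hd
  have h1 := Complex.norm_deriv_le_of_forall_mem_sphere_norm_le (c := u) (R := 3 / 2)
    (C := D / 2) (by norm_num) hdc (fun z hz => (h.disc k z (hsub (sphere_subset_closedBall hz))).le)
  have h2 : deriv (fun z => ξ k z - a k) u = deriv (ξ k) u := by
    rw [deriv_sub_const]
  rw [h2] at h1
  refine h1.trans (le_of_eq ?_)
  ring

end Pool.Agent.TH690.UR
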