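import Mathlib
set_option autoImplicit false

/-!
A maximum principle on the grid `{0, ..., m} × {0, ..., n}`: a criterion for the nonsingularity of the
matrices of the double differences of a function of pairs of points of the grid.
-/

namespace Pool.Agent.TH690.UR

open Matrix

variable {m n : ℕ}

/-- The extension of a function on `{1, ..., m} × {1, ..., n}` to a function on the grid with
vanishing sums over the rows and the columns. -/
noncomputable def extc (v : Fin m × Fin n → ℝ) (i : Fin (m + 1)) (j : Fin (n + 1)) : ℝ :=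
  Fin.cases (Fin.cases (∑ i, ∑ j, v (i, j)) (fun j => -∑ i, v (i, j)) j : ℝ)
    (fun i => Fin.cases (-∑ j, v (i, j)) (fun j => v (i, j)) j) i

theorem extc_zero_zero (v : Fin m × Fin n → ℝ) : extc v 0 0 = ∑ i, ∑ j, v (i, j) := rfl

theorem extc_zero_succ (v : Fin m × Fin n → ℝ) (j : Fin n) :
    extc v 0 j.succ = -∑ i, v (i, j) := rfl

theorem extc_succ_zero (v : Fin m × Fin n → ℝ) (i : Fin m) :
    extc v i.succ 0 = -∑ j, v (i, j) := rfl

theorem extc_succ_succ (v : Fin m × Fin n → ℝ) (i : Fin m) (j : Fin n) :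
    extc v i.succ j.succ = v (i, j) := rfl

theorem sum_extc_right (v : Fin m × Fin n → ℝ) (i : Fin (m + 1)) : ∑ j, extc v i j = 0 := by
  rw [Fin.sum_univ_succ]
  refine Fin.cases ?_ (fun i => ?_) i
  · simp only [extc_zero_zero, extc_zero_succ]
    rw [Finset.sum_neg_distrib, Finset.sum_comm, add_neg_cancel]
  · simp only [extc_succ_zero, extc_succ_succ]
    rw [neg_add_cancel]

theorem sum_extc_left (v : Fin m × Fin n → ℝ) (j : Fin (n + 1)) : ∑ i, extc v i j = 0 := by
  rw [Fin.sum_univ_succ]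
  refine Fin.cases ?_ (fun j => ?_) j
  · simp only [extc_zero_zero, extc_succ_zero]
    rw [Finset.sum_neg_distrib, add_neg_cancel]
  · simp only [extc_zero_succ, extc_succ_succ]
    rw [neg_add_cancel]

theorem sum_extc_mul (v : Fin m × Fin n → ℝ) (R : Fin (m + 1) → Fin (n + 1) → ℝ) :
    ∑ i, ∑ j, extc v i j * R i j = ∑ q : Fin m × Fin n,
      (R q.1.succ q.2.succ - R q.1.succ 0 - R 0 q.2.succ + R 0 0) * v q := by
  rw [Fintype.sum_prod_type, Fin.sum_univ_succ, Fin.sum_univ_succ]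
  simp only [Fin.sum_univ_succ (fun j => extc v (Fin.succ _) j * R (Fin.succ _) j),
    extc_zero_zero, extc_zero_succ, extc_succ_zero, extc_succ_succ]
  have h1 : (∑ i, ∑ j, v (i, j)) * R 0 0 = ∑ i, ∑ j, v (i, j) * R 0 0 := by
    simp only [Finset.sum_mul]
  have h2 : ∑ j : Fin n, (-∑ i, v (i, j)) * R 0 j.succ =
      ∑ i, ∑ j, -(v (i, j) * R 0 j.succ) := by
    rw [Finset.sum_comm]
    refine Finset.sum_congr rfl fun j _ => ?_
    rw [neg_mul, Finset.sum_mul, Finset.sum_neg_distrib]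
  have h3 : ∀ i : Fin m, (-∑ j, v (i, j)) * R i.succ 0 + ∑ j : Fin n, v (i, j) * R i.succ j.succ =
      ∑ j, (v (i, j) * R i.succ j.succ - v (i, j) * R i.succ 0) := by
    intro i
    rw [Finset.sum_sub_distrib, neg_mul, Finset.sum_mul]
    ring
  rw [h1, h2]
  have h4 : ∑ i : Fin m, ((-∑ j, v (i, j)) * R i.succ 0 +
      ∑ j : Fin n, v (i, j) * R i.succ j.succ) =
      ∑ i, ∑ j, (v (i, j) * R i.succ j.succ - v (i, j) * R i.succ 0) :=
    Finset.sum_congr rfl fun i _ => h3 i
  rw [h4, ← Finset.sum_add_distrib, ← Finset.sum_add_distrib]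
  refine Finset.sum_congr rfl fun i _ => ?_
  rw [← Finset.sum_add_distrib, ← Finset.sum_add_distrib]
  refine Finset.sum_congr rfl fun j _ => ?_
  ring

theorem le_zero (r : Fin (m + 1) → Fin (n + 1) → Fin (m + 1) → Fin (n + 1) → ℝ) {δ δ' ε T : ℝ}
    (hT : ∀ k l, T ≤ ∑ i, ∑ j, r k l i j)
    (hR : ∀ k l j, j ≠ l → ∑ i, r k l i j ≤ -δ)
    (hS : ∀ k l i, i ≠ k → ∑ j, r k l i j ≤ -δ')
    (hE : ∀ k l i j, i ≠ k → j ≠ l → |r k l i j| ≤ ε)
    (hpos : 4 * m * n * ε < T + (n + 1) * δ + (m + 1) * δ')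
    {c : Fin (m + 1) → Fin (n + 1) → ℝ} (hc1 : ∀ i, ∑ j, c i j = 0)
    (hc2 : ∀ j, ∑ i, c i j = 0) {k : Fin (m + 1)} {l : Fin (n + 1)}
    (htot : ∑ i, ∑ j, c i j * r k l i j = 0) (hmax : ∀ i j, |c i j| ≤ c k l) : c k l ≤ 0 := by
  by_contra hcon
  push Not at hcon
  set μ : ℝ := c k l with hμ
  have hle : ∀ i j, c i j ≤ μ := fun i j => (le_abs_self _).trans (hmax i j)
  have hid : ∑ i, ∑ j, c i j * r k l i j = μ * ∑ i, ∑ j, r k l i j +
      ∑ j, (c k j - μ) * ∑ i, r k l i j + ∑ i, (c i l - μ) * ∑ j, r k l i j +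
      ∑ i, ∑ j, (c i j - c k j - c i l + μ) * r k l i j := by
    have h1 : ∑ j, (c k j - μ) * ∑ i, r k l i j = ∑ i, ∑ j, (c k j - μ) * r k l i j := by
      rw [Finset.sum_comm]
      simp only [Finset.mul_sum]
    simp only [Finset.mul_sum] at h1 ⊢
    rw [h1, ← Finset.sum_add_distrib, ← Finset.sum_add_distrib, ← Finset.sum_add_distrib]
    refine Finset.sum_congr rfl fun i _ => ?_
    rw [← Finset.sum_add_distrib, ← Finset.sum_add_distrib, ← Finset.sum_add_distrib]
    refine Finset.sum_congr rfl fun j _ => ?_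
    ring
  have b1 : μ * T ≤ μ * ∑ i, ∑ j, r k l i j := mul_le_mul_of_nonneg_left (hT k l) hcon.le
  have b2 : (n + 1) * μ * δ ≤ ∑ j, (c k j - μ) * ∑ i, r k l i j := by
    have h1 : ∑ j, (μ - c k j) * δ = (n + 1) * μ * δ := by
      rw [← Finset.sum_mul, Finset.sum_sub_distrib, hc1 k, Finset.sum_const, Finset.card_univ,
        Fintype.card_fin, nsmul_eq_mul]
      push_cast
      ring
    rw [← h1]
    refine Finset.sum_le_sum fun j _ => ?_
    by_cases hj : j = l
    · rw [hj, ← hμ]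
      simp
    · have h2 := hR k l j hj
      have h3 := hle k j
      nlinarith
  have b3 : (m + 1) * μ * δ' ≤ ∑ i, (c i l - μ) * ∑ j, r k l i j := by
    have h1 : ∑ i, (μ - c i l) * δ' = (m + 1) * μ * δ' := by
      rw [← Finset.sum_mul, Finset.sum_sub_distrib, hc2 l, Finset.sum_const, Finset.card_univ,
        Fintype.card_fin, nsmul_eq_mul]
      push_cast
      ring
    rw [← h1]
    refine Finset.sum_le_sum fun i _ => ?_
    by_cases hi : i = k
    · rw [hi, ← hμ]
      simp
    · have h2 := hS k l i hi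
      have h3 := hle i l
      nlinarith
  have b4 : -(m * n * (4 * μ * ε)) ≤ ∑ i, ∑ j, (c i j - c k j - c i l + μ) * r k l i j := by
    have e1 : ∀ i, ∑ j, (c i j - c k j - c i l + μ) * r k l i j =
        ∑ j ∈ Finset.univ.erase l, (c i j - c k j - c i l + μ) * r k l i j := by
      intro i
      rw [Finset.sum_erase]
      rw [← hμ]
      ring
    have e2 : ∑ i, ∑ j, (c i j - c k j - c i l + μ) * r k l i j =
        ∑ i ∈ Finset.univ.erase k, ∑ j ∈ Finset.univ.erase l,
          (c i j - c k j - c i l + μ) * r k l i j := by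
      simp only [e1]
      rw [Finset.sum_erase]
      refine Finset.sum_eq_zero fun j _ => ?_
      rw [← hμ]
      ring
    rw [e2]
    have e3 : ∑ _i ∈ Finset.univ.erase k, ∑ _j ∈ Finset.univ.erase l, -(4 * μ * ε) =
        -(m * n * (4 * μ * ε)) := by
      rw [Finset.sum_const, Finset.sum_const, Finset.card_erase_of_mem (Finset.mem_univ k),
        Finset.card_erase_of_mem (Finset.mem_univ l), Finset.card_univ, Finset.card_univ,
        Fintype.card_fin, Fintype.card_fin, Nat.add_sub_cancel, Nat.add_sub_cancel, nsmul_eq_mul,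
        nsmul_eq_mul]
      ring
    rw [← e3]
    refine Finset.sum_le_sum fun i hi => Finset.sum_le_sum fun j hj => ?_
    have h1 := hE k l i j (Finset.ne_of_mem_erase hi) (Finset.ne_of_mem_erase hj)
    have h2 : |c i j - c k j - c i l + μ| ≤ 4 * μ := by
      have h3 := abs_le.1 (hmax i j)
      have h4 := abs_le.1 (hmax k j)
      have h5 := abs_le.1 (hmax i l)
      rw [abs_le]
      constructor <;> linarith [h3.1, h3.2, h4.1, h4.2, h5.1, h5.2]
    have h3 : |(c i j - c k j - c i l + μ) * r k l i j| ≤ 4 * μ * ε := by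
      rw [abs_mul]
      exact mul_le_mul h2 h1 (abs_nonneg _) (by linarith)
    exact (abs_le.1 h3).1
  rw [hid] at htot
  have h1 : 0 < μ * (T + (n + 1) * δ + (m + 1) * δ' - 4 * m * n * ε) := mul_pos hcon (by linarith)
  nlinarith

/-- The maximum principle. -/
theorem det_ne_zero (r : Fin (m + 1) → Fin (n + 1) → Fin (m + 1) → Fin (n + 1) → ℝ) {δ δ' ε T : ℝ}
    (h1 : ∀ l i i' j, ∑ k, r k l i j = ∑ k, r k l i' j)
    (h2 : ∀ k i j j', ∑ l, r k l i j = ∑ l, r k l i j')
    (hT : ∀ k l, T ≤ ∑ i, ∑ j, r k l i j)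
    (hR : ∀ k l j, j ≠ l → ∑ i, r k l i j ≤ -δ)
    (hS : ∀ k l i, i ≠ k → ∑ j, r k l i j ≤ -δ')
    (hE : ∀ k l i j, i ≠ k → j ≠ l → |r k l i j| ≤ ε)
    (hpos : 4 * m * n * ε < T + (n + 1) * δ + (m + 1) * δ') :
    (Matrix.of fun p q : Fin m × Fin n => r p.1.succ p.2.succ q.1.succ q.2.succ -
      r p.1.succ p.2.succ q.1.succ 0 - r p.1.succ p.2.succ 0 q.2.succ +
      r p.1.succ p.2.succ 0 0).det ≠ 0 := by
  intro hdet
  obtain ⟨v, hv0, hv⟩ := Matrix.exists_mulVec_eq_zero_iff.2 hdet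
  set c := extc v with hc
  have hc1 := sum_extc_right v
  have hc2 := sum_extc_left v
  rw [← hc] at hc1 hc2
  have t1 : ∀ (k : Fin m) (l : Fin n), ∑ i, ∑ j, c i j * r k.succ l.succ i j = 0 := by
    intro k l
    have h3 := congrFun hv (k, l)
    rw [Matrix.mulVec, dotProduct, Pi.zero_apply] at h3
    rw [hc, sum_extc_mul v (r k.succ l.succ), ← h3]
    rfl
  have t2 : ∀ (k : Fin (m + 1)), ∑ l, ∑ i, ∑ j, c i j * r k l i j = 0 := by
    intro k
    rw [Finset.sum_comm]
    refine Finset.sum_eq_zero fun i _ => ?_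
    rw [Finset.sum_comm]
    have h3 : ∀ j, ∑ l, c i j * r k l i j = c i j * ∑ l, r k l i 0 := by
      intro j
      rw [← Finset.mul_sum, h2 k i j 0]
    simp only [h3]
    rw [← Finset.sum_mul, hc1 i, zero_mul]
  have t3 : ∀ (l : Fin (n + 1)), ∑ k, ∑ i, ∑ j, c i j * r k l i j = 0 := by
    intro l
    have h3 : ∀ i j, ∑ k, c i j * r k l i j = c i j * ∑ k, r k l 0 j := by
      intro i j
      rw [← Finset.mul_sum, h1 l i 0 j]
    calc ∑ k, ∑ i, ∑ j, c i j * r k l i j = ∑ i, ∑ j, ∑ k, c i j * r k l i j := by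
          rw [Finset.sum_comm]
          refine Finset.sum_congr rfl fun i _ => ?_
          rw [Finset.sum_comm]
      _ = ∑ i, ∑ j, c i j * ∑ k, r k l 0 j := by simp only [h3]
      _ = ∑ j, (∑ i, c i j) * ∑ k, r k l 0 j := by
          rw [Finset.sum_comm]
          simp only [Finset.sum_mul]
      _ = 0 := by simp only [hc2, zero_mul, Finset.sum_const_zero]
  have t4 : ∀ (k : Fin m) (l : Fin (n + 1)), ∑ i, ∑ j, c i j * r k.succ l i j = 0 := by
    intro k l
    refine Fin.cases ?_ (fun l => t1 k l) l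
    have h3 := t2 k.succ
    rw [Fin.sum_univ_succ] at h3
    simp only [t1, Finset.sum_const_zero, add_zero] at h3
    exact h3
  have t5 : ∀ (k : Fin (m + 1)) (l : Fin (n + 1)), ∑ i, ∑ j, c i j * r k l i j = 0 := by
    intro k l
    refine Fin.cases ?_ (fun k => t4 k l) k
    have h3 := t3 l
    rw [Fin.sum_univ_succ] at h3
    simp only [t4, Finset.sum_const_zero, add_zero] at h3
    exact h3
  obtain ⟨p, -, hp⟩ := Finset.exists_max_image Finset.univ
    (fun p : Fin (m + 1) × Fin (n + 1) => |c p.1 p.2|) ⟨(0, 0), Finset.mem_univ _⟩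
  have hmax : ∀ i j, |c i j| ≤ |c p.1 p.2| := fun i j => hp (i, j) (Finset.mem_univ _)
  have hzero : c p.1 p.2 = 0 := by
    rcases le_total 0 (c p.1 p.2) with h0 | h0
    · have h3 := le_zero r hT hR hS hE hpos hc1 hc2 (t5 p.1 p.2) (fun i j => by
        have := hmax i j
        rwa [abs_of_nonneg h0] at this)
      exact le_antisymm h3 h0
    · have h3 := le_zero r hT hR hS hE hpos (c := fun i j => -c i j)
        (fun i => by rw [Finset.sum_neg_distrib, hc1 i, neg_zero])
        (fun j => by rw [Finset.sum_neg_distrib, hc2 j, neg_zero])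
        (k := p.1) (l := p.2) (by
          have := t5 p.1 p.2
          simp only [neg_mul, Finset.sum_neg_distrib]
          rw [this, neg_zero]) (fun i j => by
        have := hmax i j
        rwa [abs_of_nonpos h0, ← abs_neg] at this)
      linarith
  refine hv0 (funext fun q => ?_)
  have h3 := hmax q.1.succ q.2.succ
  rw [hzero, abs_zero] at h3
  have h4 : c q.1.succ q.2.succ = 0 := abs_eq_zero.1 (le_antisymm h3 (abs_nonneg _))
  exact h4

end Pool.Agent.TH690.UR
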