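import Pool.Agent.TH690.UR.Tor
import Pool.Agent.TH690.UR.Mat
set_option autoImplicit false

/-!
The regulator matrix of the symbols `{(x - a_i)/(x - a_0), (y - b_j)/(y - b_0)}` on the curve
`lam ∏_i (x - a_i) ∏_j (y - b_j) = 1` is nonsingular.
-/

namespace Pool.Agent.TH690.UR

open Polynomial Metric

open Pool.Agent.TH826.MK (Torus symb circ norm_circ contDiff_circ circ_add_one hasDerivAt_circ)

open Pool.Agent.TH826.UH

open scoped Real

/-- A parametrised circle around zero. -/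
structure Loop (R : ℝ) (w : ℝ → ℂ) : Prop where
  smooth : ContDiff ℝ 2 w
  per : ∀ t, w (t + 1) = w t
  norm : ∀ t, ‖w t‖ = R
  deriv : ∀ t, ‖deriv w t‖ = 2 * π * R

theorem loop_circ {R : ℝ} (hR : 0 < R) : Loop R (circ R) := by
  refine ⟨contDiff_circ R, circ_add_one R, norm_circ hR.le, fun t => ?_⟩
  rw [(hasDerivAt_circ R t).deriv]
  simp [norm_circ hR.le, abs_of_pos Real.pi_pos]

theorem loop_div_circ {R : ℝ} (hR : 0 < R) {τ : ℂ} (hτ : ‖τ‖ = R ^ 2) :
    Loop R fun t => τ / circ R t := by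
  have hz := nz_circ hR
  have hτ0 : τ ≠ 0 := by
    rw [← norm_pos_iff, hτ]
    positivity
  refine ⟨(nz_div_circ hR hτ0).smooth, fun t => by rw [circ_add_one], fun t => ?_, fun t => ?_⟩
  · rw [norm_div, norm_circ hR.le, hτ]
    field_simp
  · have h1 : HasDerivAt (fun t => τ * (circ R t)⁻¹)
        (τ * (-(2 * Real.pi * Complex.I * circ R t) / circ R t ^ 2)) t :=
      ((hasDerivAt_circ R t).fun_inv (hz.ne_zero t)).const_mul τ
    have h2 : (fun t => τ / circ R t) = fun t => τ * (circ R t)⁻¹ := by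
      funext t
      rw [div_eq_mul_inv]
    rw [h2, h1.deriv]
    simp only [norm_mul, norm_div, norm_neg, norm_pow, norm_circ hR.le, hτ, Complex.norm_ofNat,
      Complex.norm_real, Real.norm_eq_abs, abs_of_pos Real.pi_pos, Complex.norm_I]
    field_simp

section branch

variable {m : ℕ} {a : Fin (m + 1) → ℂ} {D : ℝ} {ξ : Fin (m + 1) → ℂ → ℂ} {R : ℝ} {w : ℝ → ℂ}

theorem Loop.mem (hw : Loop R w) (h1 : R ≤ 5 / 4) (t : ℝ) : w t ∈ ball (0 : ℂ) 3 := by
  rw [mem_ball_zero_iff, hw.norm]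
  linarith

theorem Br.smooth (h : Br a D ξ) (hw : Loop R w) (h1 : R ≤ 5 / 4) (k : Fin (m + 1)) :
    ContDiff ℝ 2 fun t => ξ k (w t) := by
  rw [contDiff_iff_contDiffAt]
  intro t
  exact ((h.ana k _ (hw.mem h1 t)).contDiffAt.restrict_scalars ℝ).comp t hw.smooth.contDiffAt

theorem Br.per (hw : Loop R w) (k : Fin (m + 1)) (t : ℝ) : ξ k (w (t + 1)) = ξ k (w t) := by
  rw [hw.per]

theorem Br.ne (h : Br a D ξ) (hD : 0 < D) (hR : 0 < R) (hw : Loop R w) (h1 : R ≤ 5 / 4)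
    (k i : Fin (m + 1)) (t : ℝ) : ξ k (w t) - a i ≠ 0 := by
  intro h0
  have h2 := h.prod_val (hw.mem h1 t) k
  rw [Finset.prod_eq_zero (f := fun i => ξ k (w t) - a i) (Finset.mem_univ i) h0] at h2
  have h3 := hw.norm t
  have h4 : w t ≠ 0 := by
    rw [← norm_pos_iff, h3]
    exact hR
  have h5 : (((D / 2) ^ (m + 1) / 3 : ℝ) : ℂ) ≠ 0 := by
    have : (0 : ℝ) < (D / 2) ^ (m + 1) / 3 := by positivity
    exact_mod_cast this.ne'
  exact mul_ne_zero h5 h4 h2.symm

theorem Br.nz (h : Br a D ξ) (hD : 0 < D) (hR : 0 < R) (hw : Loop R w) (h1 : R ≤ 5 / 4)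
    (k i : Fin (m + 1)) : NZ fun t => ξ k (w t) - a i :=
  ⟨(h.smooth hw h1 k).sub contDiff_const, h.ne hD hR hw h1 k i⟩

theorem Br.toDisc (h : Br a D ξ) (hD : 0 < D) (hsep : ∀ i j, i ≠ j → D ≤ ‖a i - a j‖)
    (hw : Loop R w) (h1 : R ≤ 5 / 4) {k i : Fin (m + 1)} (hik : i ≠ k) :
    Disc (fun t => ξ k (w t)) (a k) (a i) (D / 2) := by
  refine ⟨h.smooth hw h1 k, fun t => Br.per hw k t, fun t => h.disc k _ (hw.mem h1 t), ?_⟩
  have := hsep k i hik.symm
  linarith

theorem Br.far (hsep : ∀ i j, i ≠ j → D ≤ ‖a i - a j‖) {k i : Fin (m + 1)} (hik : i ≠ k) :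
    D / 2 + D / 2 ≤ ‖a k - a i‖ := by
  rw [add_halves]
  exact hsep k i hik.symm

theorem Br.le1 (h : Br a D ξ) (hD : 0 < D) (hsep : ∀ i j, i ≠ j → D ≤ ‖a i - a j‖)
    (hR : 0 < R) (hw : Loop R w) (h1 : R ≤ 5 / 4) {k i : Fin (m + 1)} (hik : i ≠ k) (t : ℝ) :
    ‖ξ k (w t) - a k‖ ≤ R / 6 * ‖a k - a i‖ := by
  have h2 := h.norm_le hD hsep k (hw.mem h1 t)
  rw [hw.norm] at h2
  have h3 := hsep k i hik.symm
  have h4 : R / 6 * D ≤ R / 6 * ‖a k - a i‖ := mul_le_mul_of_nonneg_left h3 (by positivity)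
  calc ‖ξ k (w t) - a k‖ ≤ D / 6 * R := h2
    _ = R / 6 * D := by ring
    _ ≤ _ := h4

theorem Br.le2 (h : Br a D ξ) (hsep : ∀ i j, i ≠ j → D ≤ ‖a i - a j‖)
    (hR : 0 < R) (hw : Loop R w) (h1 : R ≤ 5 / 4) {k i : Fin (m + 1)} (hik : i ≠ k) (t : ℝ) :
    ‖deriv (fun t => ξ k (w t)) t‖ ≤ 2 * π * R / 3 * ‖a k - a i‖ := by
  have hd : HasDerivAt w (deriv w t) t := (hw.smooth.differentiable (by norm_num) t).hasDerivAt
  have hx : HasDerivAt (ξ k) (deriv (ξ k) (w t)) (w t) :=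
    (h.ana k _ (hw.mem h1 t)).differentiableAt.hasDerivAt
  have h2 : HasDerivAt (fun t => ξ k (w t)) (deriv w t • deriv (ξ k) (w t)) t := hx.scomp t hd
  rw [h2.deriv, norm_smul, hw.deriv]
  have h3 := h.norm_deriv_le k (u := w t) (by rw [hw.norm]; exact h1)
  have h4 := hsep k i hik.symm
  have h5 : 0 ≤ 2 * π * R := by positivity
  calc 2 * π * R * ‖deriv (ξ k) (w t)‖ ≤ 2 * π * R * (D / 3) := mul_le_mul_of_nonneg_left h3 h5
    _ = 2 * π * R / 3 * D := by ring
    _ ≤ 2 * π * R / 3 * ‖a k - a i‖ := mul_le_mul_of_nonneg_left h4 (by positivity)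

end branch

/-! ### the estimates -/

theorem eps_bound {R : ℝ} (h0 : 0 < R) (h1 : R ≤ 5 / 4) :
    2 * (R / 6 / (1 - R / 6) * (2 * π * R / 3 / (1 - R / 6))) ≤ 2 / 5 * (π * R ^ 2) := by
  have h2 : 0 < 1 - R / 6 := by linarith
  have h3 : 5 / 9 ≤ (1 - R / 6) ^ 2 := by nlinarith
  have h4 : 2 * (R / 6 / (1 - R / 6) * (2 * π * R / 3 / (1 - R / 6))) =
      2 * (π * R ^ 2) / (9 * (1 - R / 6) ^ 2) := by
    field_simp
    ring
  rw [h4, div_le_iff₀ (by positivity)]
  have h5 : 0 ≤ π * R ^ 2 := by positivity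
  nlinarith [mul_le_mul_of_nonneg_left h3 h5]

theorem pos_bound {m n : ℕ} {W R : ℝ} (hW : 6 * ((m : ℝ) * n + 1) ≤ W) (hR : R ^ 2 = 9 / W) :
    4 * m * n * (2 / 5 * (π * R ^ 2)) < 2 * π * Real.log W := by
  have hmn : (0 : ℝ) ≤ (m : ℝ) * n := by positivity
  have hW6 : 6 ≤ W := by linarith
  have hW0 : 0 < W := by linarith
  have hpi := Real.pi_pos
  have h1 : 4 * (m : ℝ) * n * (2 / 5 * (π * R ^ 2)) = 72 / 5 * π * ((m : ℝ) * n / W) := by
    rw [hR]
    ring
  have h2 : (m : ℝ) * n / W ≤ 1 / 6 := by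
    rw [div_le_div_iff₀ hW0 (by norm_num)]
    linarith
  have h3 : 72 / 5 * π * ((m : ℝ) * n / W) ≤ 72 / 5 * π * (1 / 6) :=
    mul_le_mul_of_nonneg_left h2 (by positivity)
  have h4 : Real.log 4 ≤ Real.log W := Real.log_le_log (by norm_num) (by linarith)
  have h5 : Real.log 4 = 2 * Real.log 2 := by
    rw [show (4 : ℝ) = 2 ^ 2 by norm_num, Real.log_pow]
    norm_num
  have h6 := Real.log_two_gt_d9
  rw [h1]
  nlinarith

section main

variable {K : Type*} [Field K] {s : K →+* ℂ} {m n : ℕ} {lam : K} {a : Fin (m + 1) → K}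
  {b : Fin (n + 1) → K} {D E : ℝ}

theorem exists_loops (hD : 0 < D) (hE0 : 0 < E) (ha : ∀ i j, i ≠ j → D ≤ ‖s (a i) - s (a j)‖)
    (hb : ∀ i j, i ≠ j → E ≤ ‖s (b i) - s (b j)‖)
    (hW : 6 * ((m : ℝ) * n + 1) * 2 ^ (m + n + 2) ≤
      ‖s lam‖ * (D ^ (m + 1) * E ^ (n + 1))) :
    ∃ Γ : Fin m × Fin n → Torus (CRing lam a b) 1,
      (∀ p θ (y : K), (Γ p).e θ (ccst lam a b y) = s y) ∧
      (Matrix.of fun p q : Fin m × Fin n =>
        (Γ p).reg (symb (cent lam a b q.1.succ q.2.succ))).det ≠ 0 := by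
  obtain ⟨ξ, hξ⟩ := exists_br (a := fun i => s (a i)) hD ha
  obtain ⟨υ, hυ⟩ := exists_br (a := fun i => s (b i)) hE0 hb
  set l : ℂ := s lam with hl
  set P : ℝ := (D / 2) ^ (m + 1) with hP
  set Q : ℝ := (E / 2) ^ (n + 1) with hQ
  have hP0 : 0 < P := by positivity
  have hQ0 : 0 < Q := by positivity
  set W : ℝ := ‖l‖ * (P * Q) with hWdef
  have hPQ : P * Q = D ^ (m + 1) * E ^ (n + 1) / 2 ^ (m + n + 2) := by
    rw [hP, hQ, div_pow, div_pow, div_mul_div_comm, ← pow_add,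
      show m + 1 + (n + 1) = m + n + 2 by omega]
  have hW6 : 6 * ((m : ℝ) * n + 1) ≤ W := by
    rw [hWdef, hPQ, ← mul_div_assoc, le_div_iff₀ (by positivity)]
    exact hW
  have hmn : (0 : ℝ) ≤ (m : ℝ) * n := by positivity
  have hW0 : 0 < W := by linarith
  have hl0 : l ≠ 0 := by
    intro h0
    rw [hWdef, h0, norm_zero, zero_mul] at hW0
    exact lt_irrefl _ hW0
  have hPc : (P : ℂ) ≠ 0 := by exact_mod_cast hP0.ne'
  have hQc : (Q : ℂ) ≠ 0 := by exact_mod_cast hQ0.ne'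
  have hln : 0 < ‖l‖ := norm_pos_iff.2 hl0
  set τ : ℂ := 9 / (l * (P * Q)) with hτdef
  have hτn : ‖τ‖ = 9 / W := by
    rw [hτdef, hWdef]
    simp [abs_of_pos hP0, abs_of_pos hQ0]
  have hτ0 : τ ≠ 0 := by
    rw [← norm_pos_iff, hτn]
    positivity
  set R : ℝ := √‖τ‖ with hRdef
  have hR2 : R ^ 2 = ‖τ‖ := Real.sq_sqrt (norm_nonneg _)
  have hR : 0 < R := Real.sqrt_pos.2 (norm_pos_iff.2 hτ0)
  have hR5 : R ≤ 5 / 4 := by
    have h1 : R ^ 2 ≤ (5 / 4) ^ 2 := by
      rw [hR2, hτn, div_le_iff₀ hW0]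
      linarith
    exact (pow_le_pow_iff_left₀ hR.le (by norm_num) (by norm_num)).1 h1
  have wx : Loop R (circ R) := loop_circ hR
  have wy : Loop R (fun t => τ / circ R t) := loop_div_circ hR hR2.symm
  set X : Fin (m + 1) → ℝ → ℂ := fun k t => ξ k (circ R t) with hX
  set Y : Fin (n + 1) → ℝ → ℂ := fun k t => υ k (τ / circ R t) with hY
  have nX : ∀ k i, NZ fun t => X k t - s (a i) := fun k i => hξ.nz hD hR wx hR5 k i
  have nY : ∀ k i, NZ fun t => Y k t - s (b i) := fun k i => hυ.nz hE0 hR wy hR5 k i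
  have hPx : ∀ k t, ∏ i, (X k t - s (a i)) = ((P / 3 : ℝ) : ℂ) * circ R t := fun k t =>
    hξ.prod_val (wx.mem hR5 t) k
  have hPy : ∀ k t, ∏ i, (Y k t - s (b i)) = ((Q / 3 : ℝ) : ℂ) * (τ / circ R t) := fun k t =>
    hυ.prod_val (wy.mem hR5 t) k
  have hpt : ∀ k j t, PtC s lam a b (X k t) (Y j t) := by
    intro k j t
    refine ⟨?_⟩
    rw [hPx, hPy, ← hl, hτdef]
    have h1 := (nz_circ hR).ne_zero t
    push_cast
    field_simp
    norm_num
  set r : Fin (m + 1) → Fin (n + 1) → Fin (m + 1) → Fin (n + 1) → ℝ := fun k j i i' =>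
    pr (fun t => X k t - s (a i)) (fun t => Y j t - s (b i')) with hr
  set κ : ℂ := ((Q / 3 : ℝ) : ℂ) * τ with hκ
  have hκ0 : κ ≠ 0 := by
    refine mul_ne_zero ?_ hτ0
    exact_mod_cast (by positivity : (0 : ℝ) < Q / 3).ne'
  have hp0 : ((P / 3 : ℝ) : ℂ) ≠ 0 := by
    exact_mod_cast (by positivity : (0 : ℝ) < P / 3).ne'
  have fPx : ∀ k, (fun t => ∏ i, (X k t - s (a i))) = fun t => ((P / 3 : ℝ) : ℂ) * circ R t :=
    fun k => funext fun t => hPx k t
  have fPy : ∀ k, (fun t => ∏ i, (Y k t - s (b i))) = fun t => κ / circ R t :=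
    fun k => funext fun t => by rw [hPy, hκ, mul_div_assoc]
  have nX' : ∀ k i, NZ fun t => s (a i) - X k t := fun k i => by
    have := (nX k i).neg
    simpa only [neg_sub] using this
  have nY' : ∀ k i, NZ fun t => s (b i) - Y k t := fun k i => by
    have := (nY k i).neg
    simpa only [neg_sub] using this
  -- the sums
  have hsumi : ∀ k j i', ∑ i, r k j i i' =
      pr (fun t => ((P / 3 : ℝ) : ℂ) * circ R t) (fun t => Y j t - s (b i')) := by
    intro k j i'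
    rw [← fPx k, pr_prod_left Finset.univ (nY j i') (fun i => nX k i)]
  have hsumj : ∀ k j i, ∑ i', r k j i i' =
      pr (fun t => X k t - s (a i)) (fun t => κ / circ R t) := by
    intro k j i
    rw [← fPy j, pr_prod Finset.univ (nX k i) (fun i' => nY j i')]
  have h1 : ∀ j i i' i'', ∑ k, r k j i i'' = ∑ k, r k j i' i'' := by
    have key : ∀ j i i'', ∑ k, r k j i i'' =
        pr (fun t => ((P / 3 : ℝ) : ℂ) * circ R t) (fun t => Y j t - s (b i'')) := by
      intro j i i''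
      have e : ∀ k, r k j i i'' = pr (fun t => s (a i) - X k t) (fun t => Y j t - s (b i'')) := by
        intro k
        rw [← pr_neg_left (G := fun t => s (a i) - X k t)]
        simp only [neg_sub]
        rfl
      simp only [e]
      rw [← pr_prod_left Finset.univ (nY j i'') (fun k => nX' k i)]
      have e2 : (fun t => ∏ k, (s (a i) - X k t)) =
          fun t => -(((P / 3 : ℝ) : ℂ) * circ R t) :=
        funext fun t => hξ.prod_root (wx.mem hR5 t) i
      rw [e2, pr_neg_left]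
    intro j i i' i''
    rw [key, key]
  have h2 : ∀ k i j j', ∑ l, r k l i j = ∑ l, r k l i j' := by
    have key : ∀ k i j, ∑ l, r k l i j =
        pr (fun t => X k t - s (a i)) (fun t => κ / circ R t) := by
      intro k i j
      have e : ∀ l, r k l i j = pr (fun t => X k t - s (a i)) (fun t => s (b j) - Y l t) := by
        intro l
        rw [← pr_neg (H := fun t => s (b j) - Y l t)]
        simp only [neg_sub]
        rfl
      simp only [e]
      rw [← pr_prod Finset.univ (nX k i) (fun l => nY' l j)]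
      have e2 : (fun t => ∏ l, (s (b j) - Y l t)) = fun t => -(κ / circ R t) := by
        funext t
        rw [hκ, mul_div_assoc]
        exact hυ.prod_root (wy.mem hR5 t) j
      rw [e2, pr_neg]
    intro k i j j'
    rw [key, key]
  have hT : ∀ k l', 2 * π * Real.log ‖l‖ ≤ ∑ i, ∑ j, r k l' i j := by
    intro k l'
    have e : ∑ i, ∑ j, r k l' i j =
        pr (fun t => ((P / 3 : ℝ) : ℂ) * circ R t) (fun t => κ / circ R t) := by
      rw [← fPx k, pr_prod_left Finset.univ (nz_div_circ hR hκ0) (fun i => nX k i)]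
      exact Finset.sum_congr rfl fun i _ => hsumj k l' i
    rw [e, pr_circ_circ hR hp0 hκ0]
    have h3 : ‖((P / 3 : ℝ) : ℂ)‖ * ‖κ‖ = ‖l‖⁻¹ := by
      rw [hκ, norm_mul, hτn, Complex.norm_real, Complex.norm_real, Real.norm_eq_abs,
        Real.norm_eq_abs, abs_of_pos (by positivity), abs_of_pos (by positivity), hWdef]
      field_simp
      norm_num
    rw [h3, Real.log_inv]
    linarith
  have hRr : ∀ k l j, j ≠ l → ∑ i, r k l i j ≤ -(2 * π * Real.log (E / 2)) := by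
    intro k l j hj
    rw [hsumi]
    exact (hυ.toDisc hE0 hb wy hR5 hj).pr_mul_circ_le hR (by positivity) (Br.far hb hj) hp0
  have hS : ∀ k l i, i ≠ k → ∑ j, r k l i j ≤ -(2 * π * Real.log (D / 2)) := by
    intro k l i hi
    rw [hsumj]
    exact (hξ.toDisc hD ha wx hR5 hi).pr_div_circ_le hR (by positivity) (Br.far ha hi) hκ0
  have hE : ∀ k l i j, i ≠ k → j ≠ l → |r k l i j| ≤ 2 / 5 * (π * R ^ 2) := by
    intro k l i j hi hj
    exact (abs_pr_le (hξ.toDisc hD ha wx hR5 hi) (hυ.toDisc hE0 hb wy hR5 hj)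
      (by linarith : R / 6 < 1) (hξ.le1 hD ha hR wx hR5 hi) (hυ.le1 hE0 hb hR wy hR5 hj)
      (hξ.le2 ha hR wx hR5 hi) (hυ.le2 hb hR wy hR5 hj)).trans (eps_bound hR hR5)
  have hpos : 4 * (m : ℝ) * n * (2 / 5 * (π * R ^ 2)) <
      2 * π * Real.log ‖l‖ + (n + 1) * (2 * π * Real.log (E / 2)) +
        (m + 1) * (2 * π * Real.log (D / 2)) := by
    refine (pos_bound hW6 (hR2.trans hτn)).trans_le (le_of_eq ?_)
    rw [hWdef, Real.log_mul hln.ne' (by positivity), Real.log_mul hP0.ne' hQ0.ne', hP, hQ,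
      Real.log_pow, Real.log_pow]
    push_cast
    ring
  refine ⟨fun p => mkC (hξ.smooth wx hR5 p.1.succ) (hυ.smooth wy hR5 p.2.succ)
    (fun t => Br.per wx p.1.succ t) (fun t => Br.per wy p.2.succ t)
    (fun t => hpt p.1.succ p.2.succ t), fun p θ y => ?_, ?_⟩
  · rw [mkC_e, PtC.ev_ccst]
  · have h := det_ne_zero r h1 h2 hT hRr hS hE hpos
    have e : (Matrix.of fun p q : Fin m × Fin n => (mkC (hξ.smooth wx hR5 p.1.succ)
        (hυ.smooth wy hR5 p.2.succ) (fun t => Br.per wx p.1.succ t)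
        (fun t => Br.per wy p.2.succ t) (fun t => hpt p.1.succ p.2.succ t)).reg
        (symb (cent lam a b q.1.succ q.2.succ))) =
        Matrix.of fun p q : Fin m × Fin n => r p.1.succ p.2.succ q.1.succ q.2.succ -
          r p.1.succ p.2.succ q.1.succ 0 - r p.1.succ p.2.succ 0 q.2.succ +
          r p.1.succ p.2.succ 0 0 := by
      ext p q
      rw [Matrix.of_apply, Matrix.of_apply,
        mkC_reg _ _ _ _ _ (fun i => nX p.1.succ i) (fun j => nY p.2.succ j)]
    rw [e]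
    exact h

/-! ### smoothness -/

/-- Smoothness of the curve `lam ∏_i (x - a_i) ∏_j (y - b_j) = 1` at its complex points: the
partial derivatives of the equation do not both vanish. -/
def SmoothAt (s : K →+* ℂ) (lam : K) (a : Fin (m + 1) → K) (b : Fin (n + 1) → K) : Prop :=
  ∀ x y : ℂ, s lam * (∏ i, (x - s (a i))) * (∏ j, (y - s (b j))) = 1 →
    s lam * (derivative (sp a)).eval₂ s x * (∏ j, (y - s (b j))) ≠ 0 ∨
    s lam * (∏ i, (x - s (a i))) * (derivative (sp b)).eval₂ s y ≠ 0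

theorem map_sp (s : K →+* ℂ) {k : ℕ} (c : Fin k → K) :
    (sp c).map s = sp fun i => s (c i) := by
  unfold sp
  rw [Polynomial.map_prod]
  simp

theorem smoothAt (hD : 0 < D) (hE0 : 0 < E) (ha : ∀ i j, i ≠ j → D ≤ ‖s (a i) - s (a j)‖)
    (hb : ∀ i j, i ≠ j → E ≤ ‖s (b i) - s (b j)‖)
    (hW : 6 * ((m : ℝ) * n + 1) * 2 ^ (m + n + 2) ≤
      ‖s lam‖ * (D ^ (m + 1) * E ^ (n + 1))) :
    SmoothAt s lam a b := by
  intro x y h
  by_contra hcon
  push Not at hcon
  obtain ⟨ξ, hξ⟩ := exists_br (a := fun i => s (a i)) hD ha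
  obtain ⟨υ, hυ⟩ := exists_br (a := fun i => s (b i)) hE0 hb
  have hl : s lam ≠ 0 := by
    intro h0
    rw [h0, zero_mul, zero_mul] at h
    exact zero_ne_one h
  have hx : (∏ i, (x - s (a i))) ≠ 0 := by
    intro h0
    rw [h0, mul_zero, zero_mul] at h
    exact zero_ne_one h
  have hy : (∏ j, (y - s (b j))) ≠ 0 := by
    intro h0
    rw [h0, mul_zero] at h
    exact zero_ne_one h
  have d1 : (derivative (sp a)).eval₂ s x = 0 := by
    rcases mul_eq_zero.1 hcon.1 with h1 | h1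
    · exact (mul_eq_zero.1 h1).resolve_left hl
    · exact absurd h1 hy
  have d2 : (derivative (sp b)).eval₂ s y = 0 :=
    (mul_eq_zero.1 hcon.2).resolve_left (mul_ne_zero hl hx)
  rw [← eval_map, ← derivative_map, map_sp] at d1 d2
  have c1 := hξ.crit x d1
  have c2 := hυ.crit y d2
  have hn := congrArg norm h
  rw [norm_mul, norm_mul, norm_one] at hn
  have h3 : ‖s lam‖ * ((D / 2) ^ (m + 1) * (E / 2) ^ (n + 1)) ≤ 1 := by
    rw [← hn, mul_assoc]
    exact mul_le_mul_of_nonneg_left (mul_le_mul c1 c2 (by positivity) (norm_nonneg _))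
      (norm_nonneg _)
  have h4 : (D / 2) ^ (m + 1) * (E / 2) ^ (n + 1) =
      D ^ (m + 1) * E ^ (n + 1) / 2 ^ (m + n + 2) := by
    rw [div_pow, div_pow, div_mul_div_comm, ← pow_add,
      show m + 1 + (n + 1) = m + n + 2 by omega]
  rw [h4, ← mul_div_assoc, div_le_one (by positivity)] at h3
  have h5 : (0 : ℝ) ≤ (m : ℝ) * n := by positivity
  have h6 : (0 : ℝ) < 2 ^ (m + n + 2) := by positivity
  nlinarith

end main

end Pool.Agent.TH690.UR
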