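import Pool.Agent.TH690.UR.Branch
set_option autoImplicit false

/-!
Loops in the complex points of the curve `lam ∏_i (x - a_i) ∏_j (y - b_j) = 1`.
-/

namespace Pool.Agent.TH690.UR

open Polynomial

open Pool.Agent.TH826.MK (Torus symb pairing)

open Pool.Agent.TH826.UH

variable {K : Type*} [Field K] {s : K →+* ℂ} {m n : ℕ} {lam : K} {a : Fin (m + 1) → K}
  {b : Fin (n + 1) → K} {x y : ℂ}

/-- the points of the curve -/
structure PtC (s : K →+* ℂ) (lam : K) (a : Fin (m + 1) → K) (b : Fin (n + 1) → K) (x y : ℂ) :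
    Prop where
  eq : s lam * (∏ i, (x - s (a i))) * (∏ j, (y - s (b j))) = 1

theorem eval₂_sp (s : K →+* ℂ) {k : ℕ} (c : Fin k → K) (x : ℂ) :
    (sp c).eval₂ s x = ∏ i, (x - s (c i)) := by
  unfold sp
  rw [eval₂_finsetProd]
  simp

theorem PtC.eval_eqC (h : PtC s lam a b x y) :
    (eqC lam a b).eval₂ (eval₂RingHom s x) y = 0 := by
  have h1 : (eqC lam a b).eval₂ (eval₂RingHom s x) y =
      s lam * (∏ i, (x - s (a i))) * (∏ j, (y - s (b j))) - 1 := by
    unfold eqC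
    rw [eval₂_sub, eval₂_mul, eval₂_C, eval₂_one, eval₂_finsetProd]
    simp only [eval₂_sub, eval₂_X, eval₂_C, coe_eval₂RingHom, eval₂_mul, eval₂_sp]
  rw [h1, h.eq, sub_self]

/-- evaluation of the regular functions on the curve -/
noncomputable def PtC.ev (h : PtC s lam a b x y) : CRing lam a b →+* ℂ :=
  AdjoinRoot.lift (eval₂RingHom s x) y h.eval_eqC

theorem PtC.ev_cof (h : PtC s lam a b x y) (p : K[X]) :
    h.ev (cof lam a b p) = p.eval₂ s x :=
  AdjoinRoot.lift_of h.eval_eqC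

theorem PtC.ev_cy (h : PtC s lam a b x y) : h.ev (cy lam a b) = y :=
  AdjoinRoot.lift_root h.eval_eqC

theorem PtC.ev_cx (h : PtC s lam a b x y) : h.ev (cx lam a b) = x := by
  show h.ev (cof lam a b X) = x
  rw [h.ev_cof, eval₂_X]

theorem PtC.ev_ccst (h : PtC s lam a b x y) (c : K) : h.ev (ccst lam a b c) = s c := by
  show h.ev (cof lam a b (C c)) = s c
  rw [h.ev_cof, eval₂_C]

theorem PtC.ev_mk (h : PtC s lam a b x y) (p : K[X][X]) :
    h.ev (AdjoinRoot.mk (eqC lam a b) p : AdjoinRoot (eqC lam a b)) =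
      p.eval₂ (eval₂RingHom s x) y :=
  AdjoinRoot.lift_mk h.eval_eqC p

theorem PtC.ev_ux (h : PtC s lam a b x y) (i : Fin (m + 1)) :
    h.ev (ux lam a b i : CRing lam a b) = x - s (a i) := by
  rw [coe_ux, map_sub, h.ev_cx, h.ev_ccst]

theorem PtC.ev_uy (h : PtC s lam a b x y) (j : Fin (n + 1)) :
    h.ev (uy lam a b j : CRing lam a b) = y - s (b j) := by
  rw [coe_uy, map_sub, h.ev_cy, h.ev_ccst]

theorem PtC.ev_congr {x' y' : ℂ} (h : PtC s lam a b x y) (h' : PtC s lam a b x' y')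
    (e : x = x') (e' : y = y') : h.ev = h'.ev := by
  subst e
  subst e'
  rfl

theorem contDiff_ev {d : ℕ} {X Y : (Fin d → ℝ) → ℂ} (hX : ContDiff ℝ 2 X)
    (hY : ContDiff ℝ 2 Y) (hP : ∀ θ, PtC s lam a b (X θ) (Y θ)) (h : CRing lam a b) :
    ContDiff ℝ 2 fun θ => (hP θ).ev h := by
  have hpol : ∀ p : K[X], ContDiff ℝ 2 fun θ => p.eval₂ s (X θ) := by
    intro p
    have e : (fun θ => p.eval₂ s (X θ)) = fun θ =>
        ∑ i ∈ Finset.range (p.natDegree + 1), s (p.coeff i) * (X θ) ^ i := by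
      funext θ
      rw [Polynomial.eval₂_eq_sum_range]
    rw [e]
    exact ContDiff.sum fun i _ => contDiff_const.mul (hX.pow i)
  obtain ⟨p, hp⟩ := AdjoinRoot.mk_surjective (g := eqC lam a b) h
  have e : (fun θ => (hP θ).ev h) = fun θ =>
      ∑ i ∈ Finset.range (p.natDegree + 1), (p.coeff i).eval₂ s (X θ) * (Y θ) ^ i := by
    funext θ
    rw [← hp, (hP θ).ev_mk, Polynomial.eval₂_eq_sum_range]
    rfl
  rw [e]
  exact ContDiff.sum fun i _ => (hpol _).mul (hY.pow i)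

/-- A loop in the curve. -/
noncomputable def mkC {X Y : ℝ → ℂ} (hX : ContDiff ℝ 2 X) (hY : ContDiff ℝ 2 Y)
    (hX1 : ∀ t, X (t + 1) = X t) (hY1 : ∀ t, Y (t + 1) = Y t)
    (hP : ∀ t, PtC s lam a b (X t) (Y t)) : Torus (CRing lam a b) 1 where
  e θ := (hP (θ 0)).ev
  smooth h := contDiff_ev (X := fun θ => X (θ 0)) (Y := fun θ => Y (θ 0))
    (hX.comp (contDiff_apply ℝ ℝ 0)) (hY.comp (contDiff_apply ℝ ℝ 0)) (fun θ => hP (θ 0)) h
  periodic θ i := by
    have h0 : (θ + Pi.single i 1 : Fin 1 → ℝ) 0 = θ 0 + 1 := by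
      rw [Pi.add_apply, Subsingleton.elim i 0, Pi.single_eq_same]
    refine PtC.ev_congr _ _ ?_ ?_
    · rw [h0, hX1]
    · rw [h0, hY1]

theorem mkC_e {X Y : ℝ → ℂ} (hX : ContDiff ℝ 2 X) (hY : ContDiff ℝ 2 Y)
    (hX1 : ∀ t, X (t + 1) = X t) (hY1 : ∀ t, Y (t + 1) = Y t)
    (hP : ∀ t, PtC s lam a b (X t) (Y t)) (θ : Fin 1 → ℝ) :
    (mkC hX hY hX1 hY1 hP).e θ = (hP (θ 0)).ev := rfl

/-- The regulator of the symbol `{(x - a_i)/(x - a_0), (y - b_j)/(y - b_0)}` on a loop `(X, Y)`. -/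
theorem mkC_reg {X Y : ℝ → ℂ} (hX : ContDiff ℝ 2 X) (hY : ContDiff ℝ 2 Y)
    (hX1 : ∀ t, X (t + 1) = X t) (hY1 : ∀ t, Y (t + 1) = Y t)
    (hP : ∀ t, PtC s lam a b (X t) (Y t)) (nX : ∀ i, NZ fun t => X t - s (a i))
    (nY : ∀ j, NZ fun t => Y t - s (b j)) (i : Fin (m + 1)) (j : Fin (n + 1)) :
    (mkC hX hY hX1 hY1 hP).reg (symb (cent lam a b i j)) =
      pr (fun t => X t - s (a i)) (fun t => Y t - s (b j)) -
      pr (fun t => X t - s (a i)) (fun t => Y t - s (b 0)) -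
      pr (fun t => X t - s (a 0)) (fun t => Y t - s (b j)) +
      pr (fun t => X t - s (a 0)) (fun t => Y t - s (b 0)) := by
  have h1 : pr (fun t => (X t - s (a i)) / (X t - s (a 0)))
      (fun t => (Y t - s (b j)) / (Y t - s (b 0))) =
      pr (fun t => X t - s (a i)) (fun t => Y t - s (b j)) -
      pr (fun t => X t - s (a i)) (fun t => Y t - s (b 0)) -
      pr (fun t => X t - s (a 0)) (fun t => Y t - s (b j)) +
      pr (fun t => X t - s (a 0)) (fun t => Y t - s (b 0)) := by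
    rw [pr_div_left (nX i) (nX 0) ((nY j).div (nY 0)), pr_div (nX i) (nY j) (nY 0),
      pr_div (nX 0) (nY j) (nY 0)]
    ring
  rw [← h1, ← pairing_eq_pr ((nX i).div (nX 0)) ((nY j).div (nY 0)), Torus.reg_symb]
  unfold Torus.pair
  congr 1
  funext l θ
  fin_cases l
  · show (hP (θ 0)).ev ((ux lam a b i / ux lam a b 0 : (CRing lam a b)ˣ) : CRing lam a b) =
      (X (θ 0) - s (a i)) / (X (θ 0) - s (a 0))
    have h1 : (hP (θ 0)).ev ((ux lam a b i / ux lam a b 0 : (CRing lam a b)ˣ) : CRing lam a b) *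
        (hP (θ 0)).ev (ux lam a b 0 : CRing lam a b) =
        (hP (θ 0)).ev (ux lam a b i : CRing lam a b) := by
      rw [← map_mul, ← Units.val_mul, div_mul_cancel]
    rw [PtC.ev_ux, PtC.ev_ux] at h1
    rw [eq_div_iff ((nX 0).ne_zero (θ 0))]
    exact h1
  · show (hP (θ 0)).ev ((uy lam a b j / uy lam a b 0 : (CRing lam a b)ˣ) : CRing lam a b) =
      (Y (θ 0) - s (b j)) / (Y (θ 0) - s (b 0))
    have h1 : (hP (θ 0)).ev ((uy lam a b j / uy lam a b 0 : (CRing lam a b)ˣ) : CRing lam a b) *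
        (hP (θ 0)).ev (uy lam a b 0 : CRing lam a b) =
        (hP (θ 0)).ev (uy lam a b j : CRing lam a b) := by
      rw [← map_mul, ← Units.val_mul, div_mul_cancel]
    rw [PtC.ev_uy, PtC.ev_uy] at h1
    rw [eq_div_iff ((nY 0).ne_zero (θ 0))]
    exact h1

end Pool.Agent.TH690.UR
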